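import Pool.Agent.Lib.MP_651af7_nt.Bx.Bir

/-! An unramified map given by finitely many families of forms. -/

namespace Pool.Agent.Lib.MP_651af7_nt.Et

open MvPolynomial Bx Av

/-- The families `π t` of forms give an unramified map from the variety of `I₁` to that of `I`. -/
structure Cov {K ν κ T : Type} [Field K] [Fintype ν] (I₁ : Ideal (MvPolynomial ν K))
    (I : Ideal (MvPolynomial κ K)) (d : ℕ) (π : T → κ → MvPolynomial ν K) : Prop where
  hom : ∀ t i, (π t i).IsHomogeneous (d + 1)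
  map : ∀ t, ∀ P ∈ I, aeval (π t) P ∈ I₁
  ex : ∃ t l, π t l ∉ I₁
  ne : ∀ (F : Type) [Field F] [Algebra K F] (y : ν → F), y ≠ 0 → (∀ P ∈ I₁, aeval y P = 0) →
    ∃ t l, aeval y (π t l) ≠ 0
  inj : ∀ (F : Type) [Field F] [Algebra K F] (y u : ν → F) (t : T) (l : κ),
    (∀ P ∈ I₁, aeval y P = 0) → aeval y (π t l) ≠ 0 → u ∈ tsp I₁ y →
    (∀ i j, dP y u (π t i) * aeval y (π t j) = dP y u (π t j) * aeval y (π t i)) →
    ∀ a b, u b * y a = u a * y b

end Pool.Agent.Lib.MP_651af7_nt.Et
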