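import Pool.Agent.Lib.MP_651af7_nt.Et.Base

/-! The function field of an étale cover is algebraic over the function field of the base. -/

namespace Pool.Agent.Lib.MP_651af7_nt.Et

open MvPolynomial Bx Av Module

set_option linter.unusedSectionVars false

variable {L : Type} [Field L] {ν κ : Type} [Fintype ν] [Fintype κ]
  {I' : Ideal (MvPolynomial ν L)} {I : Ideal (MvPolynomial κ L)} {f : (ν → L) → κ → L}
  {π : κ → MvPolynomial ν L} {d : ℕ}

/-- The generic point of a prime ideal. -/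
theorem alg_gen0 (𝔭 : Ideal (MvPolynomial ν L)) [𝔭.IsPrime] :
    ∃ (F : Type) (_ : Field F) (_ : Algebra L F) (η : ν → F), Algebra.EssFiniteType L F ∧
      (∀ t : F, ∃ P Q : MvPolynomial ν L, t = aeval η P / aeval η Q) ∧
      ∀ P, aeval η P = 0 ↔ P ∈ 𝔭 := by
  let R := MvPolynomial ν L ⧸ 𝔭
  let F := FractionRing R
  have e : ∀ P, aeval (fun a => algebraMap R F (Ideal.Quotient.mk 𝔭 (X a))) P =
      algebraMap R F (Ideal.Quotient.mk 𝔭 P) := fun P => by
    have h := comp_aeval_apply X ((IsScalarTower.toAlgHom L R F).comp (Ideal.Quotient.mkₐ L 𝔭)) P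
    rw [aeval_X_left_apply] at h
    exact h.symm
  have : Algebra.EssFiniteType R F := .of_isLocalization F (nonZeroDivisors R)
  refine ⟨F, inferInstance, inferInstance, fun a => algebraMap R F (Ideal.Quotient.mk 𝔭 (X a)),
    .comp L R F, fun t => ?_, fun P => ?_⟩
  · obtain ⟨p, q, -, rfl⟩ := IsFractionRing.div_surjective (A := R) t
    obtain ⟨P, rfl⟩ := Ideal.Quotient.mk_surjective p
    obtain ⟨Q, rfl⟩ := Ideal.Quotient.mk_surjective q
    exact ⟨P, Q, by rw [e, e]⟩
  · rw [e, map_eq_zero_iff _ (IsFractionRing.injective R F), Ideal.Quotient.eq_zero_iff_mem]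

variable [CharZero L]

/-- The generic point of the affine chart `y b = 1`. -/
theorem alg_gen (hI' : Var I') {b : ν} (hb : X b ∉ I') :
    ∃ (F : Type) (_ : Field F) (_ : Algebra L F) (η : ν → F), Algebra.EssFiniteType L F ∧
      (∀ t : F, ∃ P Q : MvPolynomial ν L, t = aeval η P / aeval η Q) ∧ η b = 1 ∧
      (∀ P ∈ I', aeval η P = 0) ∧ ∀ P e, P.IsHomogeneous e → aeval η P = 0 → P ∈ I' := by
  have := hI'.isPrime
  obtain ⟨F, _, _, Y, -, -, hY⟩ := alg_gen0 I'
  have h0 : Y b ≠ 0 := fun h => hb ((hY _).1 (by rw [aeval_X, h]))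
  have := RingHom.ker_isPrime (aeval (R := L) fun a => (Y b)⁻¹ * Y a)
  obtain ⟨F', _, _, η, h1, h2, h3⟩ := alg_gen0 (RingHom.ker (aeval (R := L) fun a => (Y b)⁻¹ * Y a))
  have h4 : ∀ P e, P.IsHomogeneous e → (aeval η P = 0 ↔ P ∈ I') := fun P e hP => by
    rw [h3, RingHom.mem_ker, aeval_mul_of_hom hP, mul_eq_zero, hY,
      or_iff_right (pow_ne_zero _ (inv_ne_zero h0))]
  refine ⟨F', _, _, η, h1, h2, ?_, fun P hP => ?_, fun P e hP => (h4 P e hP).1⟩
  · have h5 := (h3 (X b - 1)).2 (by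
      rw [RingHom.mem_ker, map_sub, aeval_X, map_one, inv_mul_cancel₀ h0, sub_self])
    rwa [map_sub, aeval_X, map_one, sub_eq_zero] at h5
  · rw [← sum_homogeneousComponent P, map_sum]
    exact Finset.sum_eq_zero fun e _ =>
      (h4 _ e (homogeneousComponent_isHomogeneous e P)).2 (hI'.hom P hP e)

theorem alg_hom (l : κ) (r : MvPolynomial κ L) : ∃ n, ∀ e, n ≤ e → ∃ c : MvPolynomial κ L,
    c.IsHomogeneous e ∧ ∀ (F : Type) [CommRing F] [Algebra L F] (p : κ → F), p l = 1 →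
      aeval p c = aeval p r := by
  refine ⟨r.totalDegree, fun e he => ⟨∑ j ∈ Finset.range (r.totalDegree + 1),
    X l ^ (e - j) * homogeneousComponent j r, IsHomogeneous.sum _ _ _ fun j hj => ?_,
    fun F _ _ p hp => ?_⟩⟩
  · have h := (isHomogeneous_X_pow (R := L) l (e - j)).mul (homogeneousComponent_isHomogeneous j r)
    rwa [Nat.sub_add_cancel ((Nat.lt_succ_iff.1 (Finset.mem_range.1 hj)).trans he)] at h
  · conv_rhs => rw [← sum_homogeneousComponent r]
    simp only [map_sum, map_mul, map_pow, aeval_X, hp, one_pow, one_mul]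

variable [IsAlgClosed L]

/-- A derivation that kills the function field of the base is zero (`Etale.inj`). -/
theorem alg_isAlg (h : Etale I' I f) (hI' : Var I') (hπ : Chart I' f d π) {b : ν} (hb : X b ∉ I')
    {F : Type} [Field F] [Algebra L F] [Algebra.EssFiniteType L F] {η : ν → F}
    (hg : ∀ t : F, ∃ P Q : MvPolynomial ν L, t = aeval η P / aeval η Q) (h1 : η b = 1)
    (hz : ∀ P ∈ I', aeval η P = 0) {l : κ} (hl : aeval η (π l) ≠ 0) {p : κ → F}
    (hp : ∀ i, aeval η (π i) = aeval η (π l) * p i) (t : F) :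
    IsAlgebraic (Algebra.adjoin L (Set.range p)) t := by
  rw [← IntermediateField.isAlgebraic_adjoin_iff]
  let E := IntermediateField.adjoin L (Set.range p)
  have : Algebra.EssFiniteType E F := .of_comp L E F
  have key : ∀ (D : Derivation E F F) (s : F), D s = 0 := fun D s => by
    have hD : ∀ a : L, D (algebraMap L F a) = 0 := fun a => by
      rw [IsScalarTower.algebraMap_apply L E F, D.map_algebraMap]
    have h2 : ∀ i, D (p i) = 0 := fun i =>
      D.map_algebraMap ⟨p i, IntermediateField.subset_adjoin L _ ⟨i, rfl⟩⟩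
    have h3 : (fun a => D (η a)) = 0 := funext fun a => by
      have h4 := h.inj hI' ⟨b, hb⟩ hπ hz hl (u := fun a => D (η a))
        (mem_tsp.2 fun P hP => by rw [dP_der D hD, hz P hP, map_zero]) (fun i j => by
          rw [dP_der D hD, dP_der D hD, hp i, hp j, D.leibniz, D.leibniz, h2, h2]
          simp only [smul_eq_mul]
          ring) a b
      rw [h1, D.map_one_eq_zero, zero_mul, mul_one] at h4
      exact h4.symm
    have h4 : ∀ P : MvPolynomial ν L, D (aeval η P) = 0 := fun P => by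
      rw [← dP_der D hD, h3, dP_zero]
    obtain ⟨P, Q, rfl⟩ := hg s
    rw [D.leibniz_div, h4, h4, smul_zero, smul_zero, sub_self, smul_zero]
  have : Algebra.FormallyUnramified E F := ⟨subsingleton_of_forall_eq 0 fun ω => by
    have h2 : Submodule.span F (Set.range (KaehlerDifferential.D E F)) ≤ ⊥ := by
      rw [Submodule.span_le]
      rintro _ ⟨s, rfl⟩
      exact (Module.forall_dual_apply_eq_zero_iff F _).1 fun ℓ =>
        key (ℓ.compDer (KaehlerDifferential.D E F)) s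
    exact h2 (by rw [KaehlerDifferential.span_range_derivation]; trivial)⟩
  have := Algebra.FormallyUnramified.isSeparable E F
  exact Algebra.IsAlgebraic.isAlgebraic t

/-- The equation of `H / y b ^ d` over the function field of the base. -/
theorem alg_eq (h : Etale I' I f) (hI' : Var I')
    (hI : ∀ P ∈ I, ∀ d, homogeneousComponent d P ∈ I) {b : ν} (hb : X b ∉ I')
    {H : MvPolynomial ν L} (hH : H.IsHomogeneous d) :
    ∃ (n e : ℕ) (c : Fin (n + 1) → MvPolynomial κ L), (∀ i, (c i).IsHomogeneous e) ∧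
      c (Fin.last n) ∉ I ∧ (H ∉ I' → c 0 ∉ I) ∧ ∀ x y, x ≠ 0 → Ov I' f x y →
        ∑ i, eval x (c i) * (eval y H ^ (i : ℕ) * y b ^ (d * (n - i))) = 0 := by
  obtain ⟨F, _, _, η, _, hg, h1, hz, hm⟩ := alg_gen hI' hb
  obtain ⟨y₀, y0, yz⟩ : ∃ y : ν → L, y ≠ 0 ∧ ∀ Q ∈ I', eval y Q = 0 := by
    by_contra! hc
    exact hb (mem_of_zero hI' ⟨b, hb⟩ fun y hy hz =>
      let ⟨Q, h2, h3⟩ := hc y hy
      (h3 (hz Q h2)).elim)
  obtain ⟨d₀, π, hπ, l, hl⟩ := h.chart y0 yz
  have hl' : aeval η (π l) ≠ 0 := fun e => hl (yz _ (hm _ _ (hπ.hom l) e))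
  obtain ⟨p, hp⟩ : ∃ p : κ → F, ∀ i, aeval η (π i) = aeval η (π l) * p i :=
    ⟨fun i => aeval η (π i) / aeval η (π l), fun i => (mul_div_cancel₀ _ hl').symm⟩
  have hp1 : p l = 1 := mul_left_cancel₀ hl' (by rw [← hp, mul_one])
  have ha := alg_isAlg h hI' hπ hb hg h1 hz hl' hp (aeval η H)
  obtain ⟨q, q0, q1, q2⟩ : ∃ q : Polynomial (Algebra.adjoin L (Set.range p)), q ≠ 0 ∧
      (H ∉ I' → q.coeff 0 ≠ 0) ∧ Polynomial.aeval (aeval η H) q = 0 := by
    by_cases h2 : H ∈ I'
    · obtain ⟨q, q0, q2⟩ := ha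
      exact ⟨q, q0, fun h3 => (h3 h2).elim, q2⟩
    · obtain ⟨q, q0, q2⟩ := ha.exists_nonzero_coeff_and_aeval_eq_zero
        (mem_nonZeroDivisors_of_ne_zero fun e => h2 (hm _ _ hH e))
      exact ⟨q, fun e => q0 (by rw [e, Polynomial.coeff_zero]), fun _ => q0, q2⟩
  have h2 : ∀ i : Fin (q.natDegree + 1), ∃ r : MvPolynomial κ L, aeval p r = (q.coeff i : F) :=
    fun i => (Algebra.adjoin_range_eq_range_aeval L p).le (q.coeff i).2
  choose r hr using h2
  choose m hm' using fun i => alg_hom l (r i)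
  choose c c1 c2 using fun i => hm' i (∑ j, m j)
    (Finset.single_le_sum (fun _ _ => Nat.zero_le _) (Finset.mem_univ i))
  have h3 : ∀ i, c i ∈ I → q.coeff i = 0 := fun i hi => by
    have h4 := hz _ (h.map_mem hI' ⟨b, hb⟩ hI hπ _ hi)
    rw [bir1_aeval, funext hp, aeval_mul_of_hom (c1 i), c2 i F p hp1, hr] at h4
    exact Subtype.ext ((mul_eq_zero.1 h4).resolve_left (pow_ne_zero _ hl'))
  refine ⟨_, _, c, c1, fun e => q0 (Polynomial.leadingCoeff_eq_zero.1 (h3 _ e)),
    fun e e' => q1 e (h3 _ e'), fun x y hx hy => ?_⟩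
  obtain ⟨d', π', hπ', l', hl''⟩ := h.chart hy.1 hy.2.1
  obtain ⟨s, hs⟩ := hπ'.ov hx hy
  have h4 : ∀ i, aeval η (π' i) = aeval η (π' l) * p i := fun i => by
    have h5 := hz _ (hπ.prop hI' ⟨b, hb⟩ hπ' l i)
    rw [map_sub, map_mul, map_mul, hp i, sub_eq_zero, mul_assoc] at h5
    rw [mul_left_cancel₀ hl' h5, mul_comm]
  have h5 := hy.2.1 _ (hm (∑ i, aeval π' (c i) * (H ^ (i : ℕ) * X b ^ (d * (q.natDegree - i))))
    (d' * (∑ j, m j) + d * q.natDegree) (IsHomogeneous.sum _ _ _ fun i _ => by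
      have h6 := ((c1 i).aeval π' hπ'.hom).mul ((hH.pow i).mul
        (isHomogeneous_X_pow b (d * (q.natDegree - i))))
      rwa [← mul_add, Nat.add_sub_cancel' (Nat.lt_succ_iff.1 i.2)] at h6) (by
      rw [Polynomial.aeval_eq_sum_range, ← Fin.sum_univ_eq_sum_range
        (fun i => q.coeff i • aeval η H ^ i)] at q2
      simp only [map_sum, map_mul, map_pow, aeval_X, h1, one_pow, mul_one, bir1_aeval, funext h4,
        aeval_mul_of_hom (c1 _), c2 _ F p hp1, hr, mul_assoc, ← Finset.mul_sum]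
      exact mul_eq_zero_of_right _ q2))
  have h6 : ∀ i, eval y (aeval π' (c i)) = s ^ (∑ j, m j) * eval x (c i) := fun i => by
    rw [← aeval_eq_eval, bir1_aeval, funext (show ∀ j, aeval y (π' j) = s * x j from hs),
      aeval_mul_of_hom (c1 i), aeval_eq_eval]
  simp only [map_sum, map_mul, map_pow, eval_X, h6, mul_assoc, ← Finset.mul_sum] at h5
  exact (mul_eq_zero.1 h5).resolve_left (pow_ne_zero _ fun e => hl'' (by rw [hs, e, zero_mul]))

end Pool.Agent.Lib.MP_651af7_nt.Et
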