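import Pool.Agent.Lib.MP_651af7_nt.Et.Defs
import Pool.Agent.Lib.MP_651af7_nt.Bx.Bir
import Pool.Agent.Lib.MP_651af7_nt.Av.MWNull

/-! Charts of an étale cover. -/

namespace Pool.Agent.Lib.MP_651af7_nt.Et

open MvPolynomial Bx Av Module

set_option linter.unusedSectionVars false

variable {L : Type} [Field L] {ν κ : Type} [Fintype ν] [Fintype κ]
  {I' : Ideal (MvPolynomial ν L)} {I : Ideal (MvPolynomial κ L)} {f : (ν → L) → κ → L}
  {π : κ → MvPolynomial ν L} {d : ℕ}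

/-- The point `y` of the cover lies over `x`. -/
def Ov (I' : Ideal (MvPolynomial ν L)) (f : (ν → L) → κ → L) (x : κ → L) (y : ν → L) : Prop :=
  y ≠ 0 ∧ (∀ P ∈ I', eval y P = 0) ∧ ∃ c : L, x = c • f y

/-- Forms that give the map `f` where they do not all vanish. -/
structure Chart (I' : Ideal (MvPolynomial ν L)) (f : (ν → L) → κ → L) (d : ℕ)
    (π : κ → MvPolynomial ν L) : Prop where
  hom : ∀ i, (π i).IsHomogeneous d
  val : ∀ y ≠ 0, (∀ P ∈ I', eval y P = 0) → ∃ c : L, ∀ i, eval y (π i) = c * f y i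

theorem Chart.ov (h : Chart I' f d π) {x : κ → L} {y : ν → L} (hx : x ≠ 0) (hy : Ov I' f x y) :
    ∃ c : L, ∀ i, eval y (π i) = c * x i := by
  obtain ⟨h0, hz, c, hc⟩ := hy
  obtain ⟨c', h1⟩ := h.val y h0 hz
  have h2 : c ≠ 0 := fun e => hx (by rw [hc, e, zero_smul])
  exact ⟨c' / c, fun i => by
    rw [h1, hc, Pi.smul_apply, smul_eq_mul, ← mul_assoc, div_mul_cancel₀ _ h2]⟩

theorem Etale.chart (h : Etale I' I f) {y : ν → L} (h0 : y ≠ 0) (hy : ∀ P ∈ I', eval y P = 0) :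
    ∃ d π, Chart I' f d π ∧ ∃ i, eval y (π i) ≠ 0 := by
  obtain ⟨d, π, h1, h2, h3, -⟩ := h.loc y h0 hy
  exact ⟨d, π, ⟨h1, h3⟩, h2⟩

theorem Etale.ov_smul (h : Etale I' I f) (hI' : Var I') {x : κ → L} {y : ν → L}
    (hy : Ov I' f x y) {c : L} (hc : c ≠ 0) : Ov I' f x (c • y) := by
  obtain ⟨h0, hz, t, ht⟩ := hy
  have h1 : ∀ P ∈ I', eval (c • y) P = 0 := zero_mul_of_hom hI'.hom (v := y) hz c
  obtain ⟨d, π, hπ, i, hi⟩ := h.chart h0 hz
  obtain ⟨c₁, e₁⟩ := hπ.val y h0 hz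
  obtain ⟨c₂, e₂⟩ := hπ.val _ (smul_ne_zero hc h0) h1
  have h2 : c₁ ≠ 0 := fun e => hi (by rw [e₁, e, zero_mul])
  refine ⟨smul_ne_zero hc h0, h1, t * c₂ / (c ^ d * c₁), funext fun j => ?_⟩
  have h3 : eval (c • y) (π j) = c ^ d * eval y (π j) := aeval_mul_of_hom (hπ.hom j) c y
  rw [e₁, e₂] at h3
  rw [ht, Pi.smul_apply, Pi.smul_apply, smul_eq_mul, smul_eq_mul, div_mul_eq_mul_div, mul_assoc, h3]
  field_simp

theorem Etale.rank (h : Etale I' I f) {y : ν → L} (h0 : y ≠ 0) (hy : ∀ P ∈ I', eval y P = 0) :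
    finrank L (tsp I' y) = finrank L (tsp I (f y)) := by
  obtain ⟨d, π, -, -, -, h1⟩ := h.loc y h0 hy
  let φ : (ν → L) →ₗ[L] κ → L := Matrix.mulVecLin (Matrix.of fun i a => eval y (pderiv a (π i)))
  exact (LinearEquiv.ofBijective (φ.restrict (p := tsp I' y) (q := tsp I (f y)) h1.mapsTo)
    h1.bijective).finrank_eq

variable [IsAlgClosed L] [CharZero L]

theorem mem_of_zero' (hI : I'.IsPrime) {P : MvPolynomial ν L}
    (h : ∀ y, (∀ Q ∈ I', eval y Q = 0) → eval y P = 0) : P ∈ I' := by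
  refine hI.radical_le_iff.2 le_rfl ?_
  rw [← vanishingIdeal_zeroLocus_eq_radical (K := L), mem_vanishingIdeal_iff]
  exact h

/-- The projective Nullstellensatz. -/
theorem mem_of_zero (hI' : Var I') (h0 : ∃ b, X b ∉ I') {P : MvPolynomial ν L}
    (h : ∀ y ≠ 0, (∀ Q ∈ I', eval y Q = 0) → eval y P = 0) : P ∈ I' := by
  obtain ⟨b, hb⟩ := h0
  refine (hI'.isPrime.mem_or_mem (mem_of_zero' hI'.isPrime fun y hy => ?_)).resolve_left hb
  rw [map_mul, eval_X]
  rcases eq_or_ne y 0 with rfl | e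
  · exact zero_mul _
  · rw [h y e hy, mul_zero]

theorem Chart.prop (hI' : Var I') (h0 : ∃ b, X b ∉ I') (h : Chart I' f d π) {d' : ℕ}
    {π' : κ → MvPolynomial ν L} (h' : Chart I' f d' π') (i j : κ) :
    π i * π' j - π j * π' i ∈ I' := by
  refine mem_of_zero hI' h0 fun y h1 h2 => ?_
  obtain ⟨c, e⟩ := h.val y h1 h2
  obtain ⟨c', e'⟩ := h'.val y h1 h2
  rw [map_sub, map_mul, map_mul, e, e, e', e']
  ring

theorem Etale.map_mem (h : Etale I' I f) (hI' : Var I') (h0 : ∃ b, X b ∉ I')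
    (hI : ∀ P ∈ I, ∀ d, homogeneousComponent d P ∈ I) (hπ : Chart I' f d π) :
    ∀ P ∈ I, aeval π P ∈ I' := by
  refine fun P hP => mem_of_zero hI' h0 fun y h1 h2 => ?_
  obtain ⟨c, e⟩ := hπ.val y h1 h2
  rw [← aeval_eq_eval, bir1_aeval]
  simp only [aeval_eq_eval, e]
  exact zero_mul_of_hom hI (v := f y) (h.map y h1 h2).2 c P hP

/-- The map is dominant. -/
theorem Etale.mem_of_aeval (h : Etale I' I f) (hI' : Var I') (hI : Var I) (hπ : Chart I' f d π)
    (h0 : ∃ i, π i ∉ I') {P : MvPolynomial κ L} {e : ℕ} (hP : P.IsHomogeneous e)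
    (h1 : aeval π P ∈ I') : P ∈ I := by
  obtain ⟨i, hi⟩ := h0
  refine mem_of_zero' hI.isPrime fun x hx => ?_
  rcases eq_or_ne x 0 with rfl | x0
  · rcases Nat.eq_zero_or_pos e with rfl | he
    · rw [(totalDegree_eq_zero_iff_eq_C.1 (Nat.le_zero.1 hP.totalDegree_le))] at h1 ⊢
      rw [aeval_C, algebraMap_eq] at h1
      rw [eval_C]
      by_contra h2
      exact hI'.isPrime.ne_top (Ideal.eq_top_of_isUnit_mem _ h1 ((IsUnit.mk0 _ h2).map C))
    · have := aeval_mul_of_hom hP (0 : L) (0 : κ → L)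
      rw [zero_pow he.ne', zero_mul] at this
      simp only [zero_mul] at this
      exact this
  obtain ⟨y, y0, yz, c, rfl⟩ := h.onto x x0 hx
  obtain ⟨b, hb⟩ := Function.ne_iff.1 y0
  obtain ⟨d', π', h2, l, hl⟩ := h.chart y0 yz
  have h3 := fun j =>
    Ideal.Quotient.eq.2 (hπ.prop hI' ⟨b, fun e => hb (by simpa using yz _ e)⟩ h2 i j)
  have h4 := aeval_mul_of_hom hP (Ideal.Quotient.mkₐ L I' (π i))
    fun j => Ideal.Quotient.mkₐ L I' (π' j)
  have h5 : (fun j => Ideal.Quotient.mkₐ L I' (π i) * Ideal.Quotient.mkₐ L I' (π' j)) =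
      fun j => Ideal.Quotient.mkₐ L I' (π' i) * Ideal.Quotient.mkₐ L I' (π j) := funext fun j => by
    rw [← map_mul, ← map_mul, mul_comm (π' i)]
    exact h3 j
  rw [h5, aeval_mul_of_hom hP, ← comp_aeval_apply, ← comp_aeval_apply, Ideal.Quotient.mkₐ_eq_mk,
    Ideal.Quotient.eq_zero_iff_mem.2 h1, mul_zero, ← map_pow, ← map_mul] at h4
  have h6 := yz _ ((hI'.isPrime.mem_or_mem (Ideal.Quotient.eq_zero_iff_mem.1 h4.symm)).resolve_left
    fun e => hi (hI'.isPrime.mem_of_pow_mem _ e))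
  obtain ⟨c', e'⟩ := h2.val y y0 yz
  have h7 : c' ≠ 0 := fun e => hl (by rw [e', e, zero_mul])
  rw [← aeval_eq_eval, bir1_aeval] at h6
  simp only [aeval_eq_eval, e'] at h6
  have h8 := (aeval_mul_of_hom hP c' (f y)).symm.trans h6
  exact (aeval_mul_of_hom hP c (f y)).trans
    (by rw [(mul_eq_zero.1 h8).resolve_left (pow_ne_zero _ h7), mul_zero])

theorem Etale.inj₀ (h : Etale I' I f) (hI' : Var I') (hπ : Chart I' f d π) {y u : ν → L}
    (hy : ∀ P ∈ I', eval y P = 0) {l : κ} (hl : eval y (π l) ≠ 0) (hu : u ∈ tsp I' y)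
    (hr : ∀ i j, dP y u (π i) * eval y (π j) = dP y u (π j) * eval y (π i)) (a b : ν) :
    u b * y a = u a * y b := by
  rcases eq_or_ne y 0 with rfl | y0
  · simp
  obtain ⟨d', π', h1, ⟨m, hm⟩, h2, h3⟩ := h.loc y y0 hy
  obtain ⟨n, hn⟩ := Function.ne_iff.1 y0
  obtain ⟨c, e⟩ := hπ.val y y0 hy
  obtain ⟨c', e'⟩ := h2 y y0 hy
  have h4 : ∀ v ∈ tsp I' y, ∀ w ∈ tsp I' y, (∀ i, dP y v (π' i) = dP y w (π' i)) → v = w :=
    fun v hv w hw e => h3.injOn hv hw (funext fun i => by simpa only [dP_eq_sum, aeval_eq_eval] using e i)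
  have h5 := tsp_self hI'.hom (x := y) hy
  have h6 : (d' : L) ≠ 0 := fun e => y0 (h4 _ h5 _ (zero_mem _) fun i => by
    rw [dP_self (h1 i), e, zero_mul, dP_zero])
  rw [e, mul_ne_zero_iff] at hl
  rw [e', mul_ne_zero_iff] at hm
  have h7 := h4 u hu _ (Submodule.smul_mem _ (dP y u (π' l) / (f y l * d' * c')) h5) fun j => by
    have h8 := mem_tsp.1 hu _ (hπ.prop hI' ⟨n, fun e => hn (by simpa using hy _ e)⟩ ⟨h1, h2⟩ l j)
    have h9 := hr l j
    rw [sub_eq_add_neg, ← neg_mul, dP_add_pol, dP_mul_pol, dP_mul_pol, ← neg_one_mul (π j),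
      dP_mul_pol, ← C_1, ← C_neg, dP_C] at h8
    simp only [aeval_eq_eval, map_mul, eval_C, e, e'] at h8 h9
    rw [dP_smul, dP_self (h1 j), aeval_eq_eval, e']
    have := hl.1
    have := hl.2
    have := hm.1
    field_simp
    refine mul_left_cancel₀ (mul_ne_zero hl.1 hl.1) ?_
    linear_combination c * h8 - c' * h9
  rw [h7, Pi.smul_apply, Pi.smul_apply, smul_eq_mul, smul_eq_mul]
  ring

theorem aeval_dP {R R' : Type} [CommRing R] [CommRing R'] [Algebra L R] [Algebra L R']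
    (g : R →ₐ[L] R') (y u : ν → R) (P : MvPolynomial ν L) :
    g (dP y u P) = dP (fun a => g (y a)) (fun a => g (u a)) P := by
  simp only [dP_eq_sum, map_sum, map_mul, comp_aeval_apply]

/-- The map is unramified at points with values in any field. -/
theorem Etale.inj (h : Etale I' I f) (hI' : Var I') (h0 : ∃ b, X b ∉ I') (hπ : Chart I' f d π)
    {F : Type} [Field F] [Algebra L F] {y u : ν → F} (hy : ∀ P ∈ I', aeval y P = 0) {l : κ}
    (hl : aeval y (π l) ≠ 0) (hu : u ∈ tsp I' y)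
    (hr : ∀ i j, dP y u (π i) * aeval y (π j) = dP y u (π j) * aeval y (π i)) (a b : ν) :
    u b * y a = u a * y b := by
  have _ := h0
  let Y : ν → MvPolynomial (ν ⊕ ν) L := fun a => X (Sum.inl a)
  let U : ν → MvPolynomial (ν ⊕ ν) L := fun a => X (Sum.inr a)
  have e : ∀ P : MvPolynomial ν L, aeval (Sum.elim y u) (aeval Y P) = aeval y P := fun P => by
    simp only [comp_aeval_apply, Y, aeval_X, Sum.elim_inl]
  have e' : ∀ P : MvPolynomial ν L, aeval (Sum.elim y u) (dP Y U P) = dP y u P := fun P => by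
    simp only [aeval_dP, Y, U, aeval_X, Sum.elim_inl, Sum.elim_inr]
  have h1 : aeval Y (π l) * (U b * Y a - U a * Y b) ∈
      RingHom.ker (aeval (R := L) (Sum.elim y u)) := by
    refine mem_of_zero' (RingHom.ker_isPrime _) fun z hz => ?_
    have hz' : ∀ Q, aeval (Sum.elim y u) Q = 0 → aeval (R := L) z Q = 0 := hz
    have g : ∀ P : MvPolynomial ν L, aeval z (aeval Y P) = eval (fun a => z (Sum.inl a)) P :=
      fun P => by
        rw [← aeval_eq_eval]
        simp only [comp_aeval_apply, Y, aeval_X]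
    have g' : ∀ P : MvPolynomial ν L, aeval z (dP Y U P) =
        dP (fun a => z (Sum.inl a)) (fun a => z (Sum.inr a)) P := fun P => by
      simp only [aeval_dP, Y, U, aeval_X]
    rw [← aeval_eq_eval, map_mul, mul_eq_zero, or_iff_not_imp_left, g]
    intro hl'
    have h2 := h.inj₀ hI' hπ (fun P hP => (g P).symm.trans (hz' _ ((e P).trans (hy P hP)))) hl'
      (mem_tsp.2 fun P hP => (g' P).symm.trans (hz' _ ((e' P).trans (mem_tsp.1 hu P hP))))
      (fun i j => by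
        have h3 := hz' (dP Y U (π i) * aeval Y (π j) - dP Y U (π j) * aeval Y (π i)) (by
          rw [map_sub, map_mul, map_mul, e, e, e', e', hr, sub_self])
        rwa [map_sub, map_mul, map_mul, g, g, g', g', sub_eq_zero] at h3) a b
    simpa [Y, U, sub_eq_zero] using h2
  rw [RingHom.mem_ker, map_mul, e] at h1
  simpa [Y, U, hl, sub_eq_zero] using h1

end Pool.Agent.Lib.MP_651af7_nt.Et
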