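import Pool.Agent.Lib.MP_651af7_nt.Av.MWKum

/-! Number fields of bounded degree that are unramified outside a finite set. -/

namespace Pool.Agent.Lib.MP_651af7_nt.Et

open IsDedekindDomain NumberField Ideal Module Av
open scoped Pointwise

section different

variable {M : Type} [Field M] [NumberField M]

theorem mem_different {x : 𝓞 M} : x ∈ differentIdeal ℤ (𝓞 M) ↔
    ∀ y ∈ Submodule.traceDual ℤ ℚ (1 : Submodule (𝓞 M) M), (x : M) * y ∈ (1 : Submodule (𝓞 M) M) := by
  rw [← Submodule.mem_div_iff_forall_mul_mem, ← coeSubmodule_differentIdeal ℤ ℚ (𝓞 M),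
    IsLocalization.mem_coeSubmodule]
  exact ⟨fun h => ⟨x, h, rfl⟩, fun ⟨y, h, e⟩ => (RingOfIntegers.ext e : y = x) ▸ h⟩

theorem smul_mem_different (σ : Gal(M/ℚ)) {x : 𝓞 M} (h : x ∈ differentIdeal ℤ (𝓞 M)) :
    σ • x ∈ differentIdeal ℤ (𝓞 M) := by
  have h1 : ∀ (τ : Gal(M/ℚ)) (a : M), a ∈ (1 : Submodule (𝓞 M) M) →
      τ a ∈ (1 : Submodule (𝓞 M) M) := fun τ a ha => by
    obtain ⟨b, rfl⟩ := Submodule.mem_one.1 ha
    exact Submodule.mem_one.2 ⟨τ • b, rfl⟩
  rw [mem_different] at h ⊢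
  intro y hy
  have h2 := h1 σ _ (h (σ.symm y) (Submodule.mem_traceDual.2 fun a ha => by
    have h3 := Submodule.mem_traceDual.1 hy _ (h1 σ a ha)
    rw [Algebra.traceForm_apply] at h3 ⊢
    rwa [← Algebra.trace_eq_of_algEquiv σ, map_mul, AlgEquiv.apply_symm_apply]))
  rwa [map_mul, AlgEquiv.apply_symm_apply] at h2

theorem smul_different (σ : Gal(M/ℚ)) :
    σ • differentIdeal ℤ (𝓞 M) = differentIdeal ℤ (𝓞 M) := by
  ext x
  rw [mem_pointwise_smul_iff_inv_smul_mem]
  exact ⟨fun h => by simpa using smul_mem_different σ h, smul_mem_different σ⁻¹⟩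

theorem emult_smul (σ : Gal(M/ℚ)) (P : Ideal (𝓞 M)) {J : Ideal (𝓞 M)} (h : σ • J = J) :
    emultiplicity (σ • P) J = emultiplicity P J := by
  conv_lhs => rw [← h]
  exact emultiplicity_map_eq (MulDistribMulAction.toMulEquiv (Ideal (𝓞 M)) σ)

theorem not_pow_dvd {p : ℤ} (hp : Prime p) :
    ¬ span {(p : 𝓞 M) ^ finrank ℚ M} ∣ differentIdeal ℤ (𝓞 M) := by
  refine not_dvd_differentIdeal_of_intTrace_not_mem ℤ (p := span {p ^ finrank ℚ M}) _ ⊤
    (by simp [Ideal.map_span]) 1 trivial fun h => ?_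
  have h1 : Algebra.intTrace ℤ (𝓞 M) 1 = finrank ℚ M := by
    have h2 := Algebra.algebraMap_intTrace (A := ℤ) (K := ℚ) (L := M) (B := 𝓞 M) 1
    rw [(algebraMap (𝓞 M) M).map_one, ← (algebraMap ℚ M).map_one, Algebra.trace_algebraMap] at h2
    simp only [eq_intCast, nsmul_eq_mul, mul_one] at h2
    exact_mod_cast h2
  rw [h1, mem_span_singleton, ← Int.natAbs_dvd_natAbs, Int.natAbs_pow, Int.natAbs_natCast] at h
  exact (Nat.lt_pow_self (Int.prime_iff_natAbs_prime.1 hp).one_lt).not_ge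
    (Nat.le_of_dvd finrank_pos h)

theorem different_dvd [IsGalois ℚ M] {N : ℕ}
    (h : ∀ w : HeightOneSpectrum (𝓞 M), (N : 𝓞 M) ∉ w.asIdeal →
      ∀ τ : Gal(M/ℚ), Inert w τ → τ = 1) :
    differentIdeal ℤ (𝓞 M) ∣ span {(N : 𝓞 M) ^ finrank ℚ M} := by
  have hD : differentIdeal ℤ (𝓞 M) ≠ ⊥ := differentIdeal_ne_bot
  rw [UniqueFactorizationMonoid.dvd_iff_emultiplicity_le hD]
  intro P hP
  have := isPrime_of_prime hP
  have hb : P.under ℤ ≠ ⊥ := mt eq_bot_of_comap_eq_bot hP.ne_zero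
  by_cases hm : (N : 𝓞 M) ∈ P
  · by_contra! hc
    obtain ⟨p, e⟩ : ∃ p, P.under ℤ = span {p} := Submodule.IsPrincipal.principal (P.under ℤ)
    have p0 : p ≠ 0 := fun h0 => hb (by rw [e, h0, span_singleton_eq_bot])
    have hp : Prime p := (span_singleton_prime p0).1 (e ▸ inferInstance)
    have h1 : p ∣ N := mem_span_singleton.1 (e ▸ (by simpa using hm : algebraMap ℤ (𝓞 M) N ∈ P))
    have h2 : span {(p : 𝓞 M) ^ finrank ℚ M} ∣ span {(N : 𝓞 M) ^ finrank ℚ M} := by
      rw [Ideal.dvd_iff_le, span_singleton_le_span_singleton]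
      exact pow_dvd_pow_of_dvd (by exact_mod_cast Int.cast_dvd_cast (α := 𝓞 M) _ _ h1) _
    refine not_pow_dvd (M := M) hp ((UniqueFactorizationMonoid.dvd_iff_emultiplicity_le
      (span_singleton_eq_bot.not.2 (pow_ne_zero _ (Int.cast_ne_zero.2 p0)))).2 fun Q hQ => ?_)
    have := isPrime_of_prime hQ
    by_cases hq : (p : 𝓞 M) ∈ Q
    · have _ : P.LiesOver (span {p}) := ⟨e.symm⟩
      have : Q.LiesOver (span {p}) := (liesOver_span_iff this.ne_top hp).2 hq
      obtain ⟨σ, rfl⟩ := exists_smul_eq_of_isGaloisGroup (span {p}) P Q Gal(M/ℚ)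
      rw [emult_smul σ P (smul_different σ), emult_smul σ P (by
        rw [pointwise_smul_def, Ideal.map_span, Set.image_singleton, map_pow, map_intCast])]
      exact (emultiplicity_le_emultiplicity_of_dvd_right h2).trans hc.le
    · rw [emultiplicity_eq_zero.2 fun hd => hq (IsPrime.mem_of_pow_mem this _
        (dvd_span_singleton.1 hd))]
      exact zero_le
  · have h1 := card_inertia_eq_ramificationIdxIn (G := Gal(M/ℚ)) (P.under ℤ) P
    rw [ramificationIdxIn_eq_ramificationIdx _ P Gal(M/ℚ), (Subgroup.eq_bot_iff_forall _).2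
      fun τ hτ => h ⟨P, this, hP.ne_zero⟩ hm τ (inert_of_mem _ hτ), Subgroup.card_bot] at h1
    rw [emultiplicity_eq_zero.2
      (not_dvd_differentIdeal_iff.2 (ramificationIdx_eq_one_iff.1 h1.symm))]
    exact zero_le

theorem discr_le [IsGalois ℚ M] {N n : ℕ} (hN : N ≠ 0) (hn : finrank ℚ M ≤ n)
    (h : ∀ w : HeightOneSpectrum (𝓞 M), (N : 𝓞 M) ∉ w.asIdeal →
      ∀ τ : Gal(M/ℚ), Inert w τ → τ = 1) : |discr M| ≤ (N ^ (n * n) : ℕ) := by
  have h1 := map_dvd absNorm (different_dvd h)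
  rw [absNorm_differentIdeal M, ← span_singleton_pow, map_pow, absNorm_span_natCast,
    RingOfIntegers.rank, ← pow_mul] at h1
  rw [← Int.natCast_natAbs, Nat.cast_le]
  exact (Nat.le_of_dvd (by positivity) h1).trans
    (Nat.pow_le_pow_right (Nat.pos_of_ne_zero hN) (Nat.mul_le_mul hn hn))

end different

theorem finrank_adjoin_le {F Ω : Type} [Field F] [Field Ω] [Algebra F Ω] [Algebra.IsAlgebraic F Ω]
    {m : ℕ} (s : Finset Ω) (h : ∀ x ∈ s, (minpoly F x).natDegree ≤ m) :
    finrank F (IntermediateField.adjoin F (s : Set Ω)) ≤ m ^ s.card := by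
  classical
  induction s using Finset.induction_on with
  | empty => rw [Finset.coe_empty, IntermediateField.adjoin_empty]; simp
  | insert x s hx ih =>
    rw [Finset.coe_insert, Set.insert_eq, IntermediateField.adjoin_union,
      Finset.card_insert_of_notMem hx, pow_succ']
    refine (IntermediateField.finrank_sup_le _ _).trans (Nat.mul_le_mul ?_
      (ih fun y hy => h y (Finset.mem_insert_of_mem hy)))
    rw [IntermediateField.adjoin.finrank (Algebra.IsIntegral.isIntegral x)]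
    exact h x (Finset.mem_insert_self x s)

/-- The inertia groups of the primes that do not divide `N` fix the coordinates of `y`. -/
def Unr {Ω ν : Type} [Field Ω] (N : ℕ) (y : ν → Ω) : Prop :=
  ∀ (M : Type) [Field M] [NumberField M] [IsGalois ℚ M] (f : M →+* Ω) (u : ν → M),
    (∀ a, f (u a) = y a) → ∀ w : HeightOneSpectrum (𝓞 M), (N : 𝓞 M) ∉ w.asIdeal →
      ∀ τ : Gal(M/ℚ), Inert w τ → ∀ a, τ (u a) = u a

theorem hermite (k Ω ν : Type) [Field k] [NumberField k] [Field Ω] [Algebra k Ω] [IsAlgClosure k Ω]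
    [CharZero Ω] [Fintype ν] {N : ℕ} (hN : N ≠ 0) (n : ℕ) : ∃ L : IntermediateField k Ω,
      FiniteDimensional k L ∧ ∀ y : ν → Ω, (∀ a, (minpoly ℚ (y a)).natDegree ≤ n) → Unr N y →
        ∀ a, y a ∈ L := by
  classical
  have : IsAlgClosed Ω := IsAlgClosure.isAlgClosed k
  have : Algebra.IsAlgebraic ℚ Ω := Algebra.IsAlgebraic.trans ℚ k Ω
  obtain ⟨B, hB⟩ : ∃ B, B = (n + 1) ^ (Fintype.card ν * n) := ⟨_, rfl⟩
  obtain ⟨S, hfin, hS⟩ : ∃ S : Set { F : IntermediateField ℚ Ω // FiniteDimensional ℚ F },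
      S.Finite ∧ ∀ (F : IntermediateField ℚ Ω) (h : FiniteDimensional ℚ F) [NumberField F],
        |discr F| ≤ (N ^ (B * B) : ℕ) → ⟨F, h⟩ ∈ S :=
    ⟨_, finite_of_discr_bdd Ω (N ^ (B * B)), fun F h _ e => e⟩
  choose T hT hT' using fun F : { F : IntermediateField ℚ Ω // FiniteDimensional ℚ F } =>
    have := F.2
    IntermediateField.fg_def.1 (IntermediateField.essFiniteType_iff.1
      (inferInstance : Algebra.EssFiniteType ℚ F.1))
  have := (hfin.biUnion fun F _ => hT F).to_subtype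
  refine ⟨_, IntermediateField.finiteDimensional_adjoin (S := ⋃ F ∈ S, T F)
    fun x _ => Algebra.IsIntegral.isIntegral x, fun y hy hu a => ?_⟩
  let Q : Polynomial ℚ := ∏ a, minpoly ℚ (y a)
  have hi : ∀ x : Ω, IsIntegral ℚ x := Algebra.IsIntegral.isIntegral
  have hQ : Q ≠ 0 := Finset.prod_ne_zero_iff.2 fun a _ => minpoly.ne_zero (hi _)
  have hr : ∀ x, x ∈ Q.rootSet Ω ↔ ∃ a, Polynomial.aeval x (minpoly ℚ (y a)) = 0 := fun x => by
    rw [Polynomial.mem_rootSet_of_ne hQ, map_prod, Finset.prod_eq_zero_iff]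
    simp
  let M := IntermediateField.adjoin ℚ (Q.rootSet Ω)
  have : Q.IsSplittingField ℚ M :=
    IntermediateField.adjoin_rootSet_isSplittingField (IsAlgClosed.splits _)
  have hM : FiniteDimensional ℚ M := Polynomial.IsSplittingField.finiteDimensional M Q
  have : Normal ℚ M := Normal.of_isSplittingField Q
  have : IsGalois ℚ M := {}
  have : NumberField M := ⟨⟩
  let u : ν → M := fun a =>
    ⟨y a, IntermediateField.subset_adjoin ℚ _ ((hr _).2 ⟨a, minpoly.aeval ℚ _⟩)⟩
  have h1 : finrank ℚ M ≤ B := by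
    have h2 := finrank_adjoin_le (F := ℚ) (m := n + 1) (Q.aroots Ω).toFinset fun x hx => by
      obtain ⟨a, ha⟩ := (hr x).1 hx
      exact ((Polynomial.natDegree_le_of_dvd (minpoly.dvd ℚ x ha) (minpoly.ne_zero (hi _))).trans
        (hy a)).trans n.le_succ
    refine h2.trans (hB ▸ Nat.pow_le_pow_right n.succ_pos ((Multiset.toFinset_card_le _).trans
      ((Polynomial.card_roots' _).trans (Polynomial.natDegree_map_le.trans
        ((Polynomial.natDegree_prod_le _ _).trans ?_)))))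
    simpa using Finset.sum_le_card_nsmul Finset.univ _ n fun a _ => hy a
  have h2 := discr_le hN h1 fun w hw τ hτ => by
    refine AlgEquiv.coe_toAlgHom_injective (IntermediateField.adjoin_algHom_ext ℚ fun x hx => ?_)
    obtain ⟨a, ha⟩ := (hr x).1 hx
    have e := minpoly.algHom_eq M.val M.val.injective (u a)
    obtain ⟨σ, hσ⟩ := minpoly.exists_algEquiv_of_root' (K := ℚ) (y := u a)
      (x := ⟨x, IntermediateField.subset_adjoin ℚ _ hx⟩) (Algebra.IsAlgebraic.isAlgebraic _)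
      ((map_eq_zero M.val).1 (by
        rw [← Polynomial.aeval_algHom_apply]
        exact (congrArg (Polynomial.aeval x) e).symm.trans ha))
    rw [← hσ]
    exact hu M ((M.val : M →+* Ω).comp (σ.symm : M →+* M)) (fun a => σ (u a))
      (fun a => congrArg Subtype.val (σ.symm_apply_apply (u a))) w hw τ hτ a
  have h3 : M ≤ (IntermediateField.adjoin k (⋃ F ∈ S, T F)).restrictScalars ℚ := by
    refine (hT' ⟨M, hM⟩).ge.trans (IntermediateField.adjoin_le_iff.2 ?_)
    exact (Set.subset_biUnion_of_mem (u := T) (hS M hM h2)).trans (IntermediateField.subset_adjoin k _)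
  exact h3 (u a).2

end Pool.Agent.Lib.MP_651af7_nt.Et
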