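import Pool.Agent.Lib.MP_651af7_nt.Et.Sep
import Pool.Agent.Lib.MP_651af7_nt.Et.Herm

/-! The Chevalley-Weil theorem for points of bounded degree. -/

namespace Pool.Agent.Lib.MP_651af7_nt.Et

open MvPolynomial Bx Av IsDedekindDomain NumberField Module

section val

variable {M Ω : Type} [Field M] [NumberField M] [Field Ω] {w : HeightOneSpectrum (𝓞 M)} {N : ℕ}
  {g : M →+* Ω}

theorem val_le (hw : (N : 𝓞 M) ∉ w.asIdeal) {c : M} (h : IsIntegral ℤ (N * g c)) :
    w.valuation M c ≤ 1 := by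
  have h1 : IsIntegral ℤ ((N : M) * c) := by
    rwa [← isIntegral_algHom_iff g.toIntAlgHom g.injective, RingHom.toIntAlgHom_apply, map_mul,
      map_natCast]
  have h2 : w.valuation M (N : M) = 1 := by
    have := (w.intValuation_eq_one_iff_mem_primeCompl (N : 𝓞 M)).2 hw
    rw [← this, ← w.valuation_of_algebraMap (K := M)]
    exact congrArg _ (map_natCast (algebraMap (𝓞 M) M) N).symm
  have h3 : w.valuation M ((N : M) * c) ≤ 1 := w.valuation_le_one (⟨_, h1⟩ : 𝓞 M)
  rwa [map_mul, h2, one_mul] at h3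

theorem exists_den [CharZero Ω] [Algebra.IsAlgebraic ℚ Ω] {T : Set Ω} (hT : T.Finite) :
    ∃ N : ℕ, N ≠ 0 ∧ ∀ c ∈ T, IsIntegral ℤ (N * c) := by
  have : Algebra.IsAlgebraic ℤ Ω := (IsFractionRing.comap_isAlgebraic_iff (K := ℚ)).2 inferInstance
  obtain ⟨n, h0, h⟩ := Algebra.IsAlgebraic.exists_integral_multiples ℤ hT.toFinset
  refine ⟨n.natAbs, Int.natAbs_ne_zero.2 h0, fun c hc => ?_⟩
  have h1 := h c (hT.mem_toFinset.2 hc)
  rw [zsmul_eq_mul] at h1
  rcases Int.natAbs_eq n with e | e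
  · rwa [e, Int.cast_natCast] at h1
  · rw [e, Int.cast_neg, Int.cast_natCast, neg_mul] at h1
    simpa using h1.neg

/-- Inertia fixes a finite set, away from finitely many primes. -/
theorem exists_fix [CharZero Ω] [Algebra.IsAlgebraic ℚ Ω] {T : Set Ω} (hT : T.Finite) :
    ∃ N : ℕ, N ≠ 0 ∧ ∀ (M : Type) [Field M] [NumberField M] (g : M →+* Ω)
      (w : HeightOneSpectrum (𝓞 M)), (N : 𝓞 M) ∉ w.asIdeal → ∀ c, g c ∈ T →
      w.valuation M c ≤ 1 ∧ ∀ τ : Gal(M/ℚ), Inert w τ → τ c = c := by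
  obtain ⟨N, h0, h⟩ := exists_den (hT.union (hT.biUnion fun t _ =>
    ((minpoly ℚ t).rootSet_finite Ω).image fun r => (r - t)⁻¹))
  refine ⟨N, h0, fun M _ _ g w hw c hc => ?_⟩
  have h1 := val_le hw (h _ (Or.inl hc))
  refine ⟨h1, fun τ hτ => by_contra fun e => ?_⟩
  have h2 : g (τ c) ∈ (minpoly ℚ (g c)).rootSet Ω := by
    rw [Polynomial.mem_rootSet_of_ne (minpoly.ne_zero (Algebra.IsIntegral.isIntegral _))]
    have h3 := minpoly.algHom_eq g.toRatAlgHom g.injective c
    have h4 := Polynomial.aeval_algHom_apply (g.toRatAlgHom.comp τ) c (minpoly ℚ c)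
    rw [minpoly.aeval, map_zero, ← h3] at h4
    exact h4
  have h3 := val_le (c := (τ c - c)⁻¹) hw (h _ (Or.inr (Set.mem_biUnion hc
    ⟨_, h2, by rw [map_inv₀, map_sub]⟩)))
  rw [map_inv₀, inv_le_one₀ (zero_lt_iff.2 ((map_ne_zero _).2 (sub_ne_zero.2 e)))] at h3
  exact (hτ c h1).not_ge h3

omit [NumberField M] in
theorem eval_conj {σ : Type} {g' : M →+* Ω} {R : MvPolynomial σ Ω}
    (h : ∀ m ∈ R.support, ∃ c, g c = coeff m R ∧ g' c = coeff m R) {z : σ → M}
    (hz : eval (fun a => g (z a)) R = 0) : eval (fun a => g' (z a)) R = 0 := by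
  choose! c h1 h2 using h
  have key : ∀ j : M →+* Ω, (∀ m ∈ R.support, j (c m) = coeff m R) → eval (fun a => j (z a)) R =
      j (∑ m ∈ R.support, c m * ∏ i ∈ m.support, z i ^ m i) := fun j hj => by
    rw [eval_eq, map_sum]
    exact Finset.sum_congr rfl fun m hm => by simp only [map_mul, map_prod, map_pow, hj m hm]
  rw [key g h1, map_eq_zero] at hz
  rw [key g' h2, hz, map_zero]

end val

variable {Ω ν κ : Type} [Field Ω] [IsAlgClosed Ω] [CharZero Ω] [Fintype ν] [Fintype κ]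
  {I' : Ideal (MvPolynomial ν Ω)} {I : Ideal (MvPolynomial κ Ω)} {f : (ν → Ω) → κ → Ω}

theorem Etale.fix (h : Etale I' I f) (hI' : Var I') : ∃ T : Set Ω, T.Finite ∧
    ∀ (M : Type) [Field M] [NumberField M] (g : M →+* Ω) (w : HeightOneSpectrum (𝓞 M))
      (τ : Gal(M/ℚ)), Inert w τ → (∀ t ∈ T, ∃ c, g c = t ∧ w.valuation M c ≤ 1 ∧ τ c = c) →
      ∀ (x : κ → M) (u : ν → M), x ≠ 0 → (∀ i, τ (x i) = x i) →
      Ov I' f (fun i => g (x i)) (fun a => g (u a)) → (∃ b, u b = 1) → ∀ a, τ (u a) = u a := by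
  classical
  choose n G hG using h.sep hI'
  obtain ⟨s, hs⟩ := h.graph
  refine ⟨(⋃ R ∈ s, (R.coeffs : Set Ω)) ∪ ⋃ a, ⋃ b, ((G a b).coeffs : Set Ω),
    (s.finite_toSet.biUnion fun R _ => R.coeffs.finite_toSet).union
      (Set.finite_iUnion fun a => Set.finite_iUnion fun b => (G a b).coeffs.finite_toSet),
    fun M _ _ g w τ hτ hT x u x0 hx hu ⟨b₀, hb₀⟩ => ?_⟩
  have : Nonempty ν := ⟨b₀⟩
  have hne : ∀ {α : Type} {z : α → M} (j : M →+* Ω), z ≠ 0 → (fun a => j (z a)) ≠ 0 :=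
    fun j h h' => h (funext fun a => (map_eq_zero _).1 (congrFun h' a))
  obtain ⟨a, ha⟩ := Finite.exists_max fun a => w.valuation M (u a)
  have ha0 : u a ≠ 0 := fun e => by
    have := ha b₀
    rw [e, hb₀, map_zero, map_one] at this
    exact this.not_gt zero_lt_one
  let v : ν → M := fun c => (u a)⁻¹ * u c
  have va : v a = 1 := inv_mul_cancel₀ ha0
  have v0 : v ≠ 0 := fun e => one_ne_zero (va.symm.trans (congrFun e a))
  have v1 : ∀ c, w.valuation M (v c) ≤ 1 := fun c => by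
    rw [map_mul, map_inv₀, inv_mul_le_iff₀ (zero_lt_iff.2 ((map_ne_zero _).2 ha0)), mul_one]
    exact ha c
  have h1 : Ov I' f (fun i => g (x i)) fun c => g (v c) := by
    convert h.ov_smul hI' hu (inv_ne_zero ((map_ne_zero g).2 ha0)) using 1
    funext c
    simp [v]
  have h2 : Ov I' f (fun i => g (x i)) fun c => g (τ (v c)) := by
    refine (hs _ _ (hne g x0) (hne (g.comp (τ : M →+* M)) v0)).2 fun R hR => ?_
    have h3 := eval_conj (g := g) (g' := g.comp (τ : M →+* M)) (R := R) (z := Sum.elim x v)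
      (fun m hm => by
        obtain ⟨c, e1, -, e2⟩ := hT _ (Or.inl (Set.mem_biUnion hR (coeff_mem_coeffs m
          (mem_support_iff.1 hm))))
        exact ⟨c, e1, (congrArg g e2).trans e1⟩)
      (by
        convert (hs _ _ (hne g x0) h1.1).1 h1 R hR using 3
        funext c
        cases c <;> rfl)
    convert h3 using 3
    funext c
    cases c with
    | inl i => exact (congrArg g (hx i)).symm
    | inr c => rfl
  have h3 : ∀ c, τ (v c) = v c := by
    obtain ⟨b, hb⟩ := Finite.exists_max fun c => w.valuation M (τ (v c) - v c)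
    by_contra! hc
    obtain ⟨c, hc⟩ := hc
    have t0 : τ (v b) - v b ≠ 0 := fun e => by
      have := hb c
      rw [e, map_zero, le_zero_iff, map_eq_zero, sub_eq_zero] at this
      exact hc this
    let δ : ν → M := fun c => (τ (v b) - v b)⁻¹ * (τ (v c) - v c)
    have h4 := hG a b _ _ _ (fun c => g (δ c)) (hne g x0) ((map_ne_zero g).2 t0) h1 (by
      convert h2 using 1
      funext c
      rw [Pi.add_apply, Pi.smul_apply, smul_eq_mul, ← map_mul, ← map_add, mul_inv_cancel_left₀ t0,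
        add_sub_cancel])
    have h5 : eval (pt (g (τ (v b) - v b)) (fun c => g (v c)) fun c => g (δ c)) (G a b) ∈
        (w.valuation M).integer.map g := by
      refine eval_mem (fun m hm => ?_) ?_
      · obtain ⟨c, e1, e2, -⟩ := hT _ (Or.inr (Set.mem_iUnion₂.2 ⟨a, b, coeff_mem_coeffs m
          (mem_support_iff.1 hm)⟩))
        exact ⟨c, e2, e1⟩
      · rintro (_ | c | c)
        · exact ⟨_, (hτ _ (v1 b)).le, rfl⟩
        · exact ⟨_, v1 c, rfl⟩
        · refine ⟨_, ?_, rfl⟩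
          show w.valuation M _ ≤ 1
          rw [map_mul, map_inv₀, inv_mul_le_iff₀ (zero_lt_iff.2 ((map_ne_zero _).2 t0)), mul_one]
          exact hb c
    obtain ⟨c, h6, h7⟩ := h5
    have h8 : δ b = 1 := inv_mul_cancel₀ t0
    have h9 : δ a = 0 := by simp only [δ, va, map_one, sub_self, mul_zero]
    rw [← h7, h8, h9, va, map_one, map_zero, one_mul, zero_mul, sub_zero, one_pow, ← map_mul,
      ← g.map_one, g.injective.eq_iff] at h4
    have h10 := congrArg (w.valuation M) h4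
    rw [map_one, map_mul] at h10
    exact (lt_of_le_of_lt (mul_le_of_le_one_right' h6) (hτ _ (v1 b))).ne' h10
  intro c
  have h4 := h3 b₀
  have h5 := h3 c
  simp only [v, hb₀, mul_one, map_mul] at h4 h5
  rw [h4] at h5
  exact mul_left_cancel₀ (inv_ne_zero ha0) h5

omit [IsAlgClosed Ω] in
theorem deg_le {K : Type} [Field K] [NumberField K] [Algebra K Ω] {t : Ω} {p : Polynomial K}
    (h0 : p ≠ 0) (h : Polynomial.aeval t p = 0) :
    (minpoly ℚ t).natDegree ≤ finrank ℚ K * p.natDegree := by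
  have h1 : IsIntegral K t := IsAlgebraic.isIntegral ⟨p, h0, h⟩
  have := IntermediateField.adjoin.finiteDimensional h1
  have : FiniteDimensional ℚ (IntermediateField.adjoin K {t}) := FiniteDimensional.trans ℚ K _
  have h2 := minpoly.natDegree_le (A := ℚ) (IntermediateField.AdjoinSimple.gen K t)
  rw [← finrank_mul_finrank ℚ K, IntermediateField.adjoin.finrank h1, ← minpoly.algHom_eq
    ((IntermediateField.adjoin K {t}).val.restrictScalars ℚ) Subtype.val_injective] at h2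
  exact h2.trans (Nat.mul_le_mul_left _ (Polynomial.natDegree_le_of_dvd (minpoly.dvd K t h) h0))

theorem chevalley {k Ω ν κ : Type} [Field k] [NumberField k] [Field Ω] [Algebra k Ω]
    [IsAlgClosure k Ω] [Fintype ν] [Fintype κ] {I' : Ideal (MvPolynomial ν Ω)}
    {I : Ideal (MvPolynomial κ Ω)} {f : (ν → Ω) → κ → Ω} (h : Etale I' I f) (hI' : Var I')
    (K : IntermediateField k Ω) [FiniteDimensional k K] (n : ℕ) :
    ∃ L : IntermediateField k Ω, FiniteDimensional k L ∧ ∀ (x : κ → k) (y : ν → Ω), x ≠ 0 →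
      Ov I' f (fun i => algebraMap k Ω (x i)) y → (∃ b, y b = 1) →
      (∀ a, ∃ p : Polynomial K, p ≠ 0 ∧ p.natDegree ≤ n ∧ Polynomial.aeval (y a) p = 0) →
      ∀ a, y a ∈ L := by
  have : IsAlgClosed Ω := IsAlgClosure.isAlgClosed k
  have : CharZero Ω := charZero_of_injective_algebraMap (algebraMap k Ω).injective
  have : Algebra.IsAlgebraic ℚ Ω := Algebra.IsAlgebraic.trans ℚ k Ω
  have : NumberField K := NumberField.of_module_finite k K
  obtain ⟨T₀, h0, h1⟩ := h.fix hI'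
  obtain ⟨α, hα⟩ := Field.exists_primitive_element ℚ k
  have h2 := h0.insert (algebraMap k Ω α)
  obtain ⟨N, N0, hN⟩ := exists_fix h2
  have := h2.fintype
  obtain ⟨m, hm⟩ := (h2.image fun t => (minpoly ℚ t).natDegree).bddAbove
  obtain ⟨L, hL, h3⟩ := hermite k Ω (ν ⊕ (insert (algebraMap k Ω α) T₀ : Set Ω)) N0
    (finrank ℚ K * n + m)
  refine ⟨L, hL, fun x y x0 hy ⟨b, hb⟩ hp a => h3 (Sum.elim y Subtype.val) ?_ ?_ (Sum.inl a)⟩
  · rintro (a | t)
    · obtain ⟨p, e1, e2, e3⟩ := hp a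
      exact ((deg_le e1 e3).trans (Nat.mul_le_mul_left _ e2)).trans (Nat.le_add_right _ _)
    · exact (hm ⟨t, t.2, rfl⟩).trans (Nat.le_add_left _ _)
  intro M _ _ _ g u hu w hw τ hτ
  have h4 : ∀ t ∈ insert (algebraMap k Ω α) T₀, ∃ c, g c = t ∧ w.valuation M c ≤ 1 ∧ τ c = c :=
    fun t ht =>
      have e : g (u (Sum.inr ⟨t, ht⟩)) = t := hu _
      have e' := hN M g w hw _ (e.symm ▸ ht)
      ⟨_, e, e'.1, e'.2 τ hτ⟩
  have h5 : ∀ z : k, ∃ c, g c = algebraMap k Ω z ∧ τ c = c := fun z => by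
    have hz : z ∈ IntermediateField.adjoin ℚ {α} := hα ▸ IntermediateField.mem_top
    induction hz using IntermediateField.adjoin_induction with
    | mem z hz =>
      obtain ⟨c, e1, -, e2⟩ := h4 _ (Set.mem_insert _ _)
      exact ⟨c, hz ▸ e1, e2⟩
    | algebraMap q => exact ⟨q, by simp, by simp⟩
    | add z z' _ _ e e' =>
      obtain ⟨c, e1, e2⟩ := e
      obtain ⟨c', e3, e4⟩ := e'
      exact ⟨c + c', by rw [map_add, map_add, e1, e3], by rw [map_add, e2, e4]⟩
    | inv z _ e =>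
      obtain ⟨c, e1, e2⟩ := e
      exact ⟨c⁻¹, by rw [map_inv₀, map_inv₀, e1], by rw [map_inv₀, e2]⟩
    | mul z z' _ _ e e' =>
      obtain ⟨c, e1, e2⟩ := e
      obtain ⟨c', e3, e4⟩ := e'
      exact ⟨c * c', by rw [map_mul, map_mul, e1, e3], by rw [map_mul, e2, e4]⟩
  choose x' e1 e2 using fun i => h5 (x i)
  have e3 : (fun a => g (u (Sum.inl a))) = y := funext fun a => hu _
  rintro (a | t)
  · refine h1 M g w τ hτ (fun t ht => h4 t (Set.mem_insert_of_mem _ ht)) x'
      (fun a => u (Sum.inl a)) (fun e => x0 (funext fun i => ?_)) e2 ?_ ⟨b, g.injective ?_⟩ a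
    · have := e1 i
      rw [congrFun e i, Pi.zero_apply, map_zero, eq_comm, map_eq_zero] at this
      exact this
    · rwa [e3, funext e1]
    · rw [congrFun e3 b, hb, map_one]
  · exact (hN M g w hw _ ((hu (Sum.inr t)).symm ▸ t.2)).2 τ hτ

end Pool.Agent.Lib.MP_651af7_nt.Et
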