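import Pool.Agent.Lib.MP_651af7_nt.Et.Cov
import Pool.Agent.Lib.MP_651af7_nt.Et.Alg
import Pool.Agent.Lib.MP_651af7_nt.Hy.Main

/-! The height of a subscheme of codimension two, on the base of an unramified cover. -/

namespace Pool.Agent.Lib.MP_651af7_nt.Et

open MvPolynomial Bx Av Ds Height

set_option linter.unusedSectionVars false

variable {K ν κ ι T α : Type} [Field K] [Fintype ν] [Fintype κ] [Fintype ι] [Fintype T] [Fintype α]
  {I₁ : Ideal (MvPolynomial ν K)} {I : Ideal (MvPolynomial κ K)} {d g e : ℕ}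
  {π : T → κ → MvPolynomial ν K} {Y : α → MvPolynomial κ K}

theorem Cov.cod [CharZero K] (h : Cov I₁ I d π) (hc : Hy.Cod I Y g) :
    Hy.Cod I₁ (fun p : T × α => aeval (π p.1) (Y p.2)) g := by
  intro F _ _ y hy hY j hj
  have := RingHom.ker_isPrime (aeval (R := K) y)
  obtain ⟨E, _, _, η, -, h1, h2⟩ := alg_gen0 (RingHom.ker (aeval (R := K) y))
  have hz : ∀ P ∈ I₁, aeval η P = 0 := fun P hP => (h2 P).2 (hy P hP)
  have h3 := fun t => hc E (fun i => aeval η (π t i))
    (fun P hP => (bir1_aeval η P).symm.trans (hz _ (h.map t P hP)))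
    fun i => (bir1_aeval η (Y i)).symm.trans ((h2 _).2 (hY (t, i)))
  have h4 : AlgebraicIndependent K fun s => η (j s) := algebraicIndependent_iff.2 fun p hp =>
    algebraicIndependent_iff.1 hj p ((aeval_rename j y p).symm.trans
      ((h2 _).1 ((aeval_rename j η p).trans hp)))
  rcases Nat.eq_zero_or_pos g with rfl | hg
  · obtain ⟨t, -⟩ := h.ex
    exact h3 t Fin.elim0 algebraicIndependent_empty_type
  have h5 : η (j ⟨0, hg⟩) ≠ 0 := h4.ne_zero _
  obtain ⟨t, l, hl⟩ := h.ne E η (Function.ne_iff.2 ⟨_, h5⟩) hz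
  have : CharZero E := charZero_of_injective_algebraMap (algebraMap K E).injective
  obtain ⟨j', h6⟩ := Hy.indep_of_der (x := fun i => aeval η (π t i)) (fun D hD => by
    have h6 := dP_der (K := K) D D.map_algebraMap η
    have h7 : (fun a => D (η a)) = (D (η (j ⟨0, hg⟩)) / η (j ⟨0, hg⟩)) • η := funext fun a => by
      rw [Pi.smul_apply, smul_eq_mul, div_mul_eq_mul_div, eq_div_iff h5]
      exact h.inj E η (fun a => D (η a)) t l hz hl
        (mem_tsp.2 fun P hP => by rw [h6, hz P hP, map_zero])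
        (fun i m => by rw [h6, h6, hD, hD, zero_mul, zero_mul]) _ a
    have h8 := h6 (π t l)
    rw [hD, h7, dP_smul, dP_self (h.hom t l)] at h8
    rw [(mul_eq_zero.1 h8).resolve_right (mul_ne_zero (Nat.cast_ne_zero.2 d.succ_ne_zero) hl),
      zero_smul] at h7
    ext s
    obtain ⟨P, Q, rfl⟩ := h1 s
    rw [D.leibniz_div, ← h6, ← h6, h7, dP_zero, dP_zero, smul_zero, smul_zero, sub_self, smul_zero,
      Derivation.zero_apply]) h4
  exact h3 t j' h6

theorem core_Y [NumberField K] (B : AV K ι) (hI : Var I₁) (hs : Smooth I₁ g) (hb : Birat I₁ B.I)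
    (h : Cov I₁ I d π) (hY : ∀ j, (Y j).IsHomogeneous e) (hc : Hy.Cod I Y g) {ε : ℝ} (hε : 0 < ε) :
    ∃ (H : MvPolynomial ν K) (t : ℕ) (C : ℝ), H.IsHomogeneous t ∧ H ∉ I₁ ∧
      ∀ (y : ν → K) (x : κ → K) (s : T → K), y ≠ 0 → (∀ P ∈ I₁, eval y P = 0) → eval y H ≠ 0 →
        x ≠ 0 → (∀ t i, eval y (π t i) = s t * x i) → (fun j => eval x (Y j)) ≠ 0 ∧
        e * logHeight x - logHeight (fun j => eval x (Y j)) ≤ ε * logHeight y + C := by
  obtain ⟨H, t, C, h1, h2, h3⟩ := Hy.part B hI hs hb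
    (fun p : T × α => (hY p.2).aeval (π p.1) (h.hom p.1)) (h.cod hc) hε
  obtain ⟨C', h4⟩ := Hy.hY_le h.hom hY
  refine ⟨H, t, C + C', h1, h2, fun y x s y0 yz yH x0 hx => ?_⟩
  obtain ⟨h5, h6⟩ := h3 y y0 yz yH
  obtain ⟨h7, h8⟩ := h4 y x s x0 hx h5
  exact ⟨h7, by linarith⟩

theorem cod_up {k : Type} [Field k] [Algebra k K] [Algebra K (AlgebraicClosure k)]
    [IsScalarTower k K (AlgebraicClosure k)] {I : Ideal (MvPolynomial κ k)}
    {Y : α → MvPolynomial κ k} (hc : Hy.Cod I Y g) :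
    Hy.Cod (up K I) (fun j => MvPolynomial.map (algebraMap k K) (Y j)) g := by
  intro E _ _ x hx hY j hj
  let _ : Algebra k E := ((algebraMap K E).comp (algebraMap k K)).toAlgebra
  have : IsScalarTower k K E := .of_algebraMap_eq fun _ => rfl
  exact hc E x (zero_map.1 fun P hP => hx P (map_le_up hP))
    (fun i => (aeval_map_algebraMap K x (Y i)).symm.trans (hY i)) j
    (hj.restrictScalars (algebraMap k K).injective)

end Pool.Agent.Lib.MP_651af7_nt.Et
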