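import Pool.Agent.Lib.MP_651af7_nt.Bx.Defs

/-! Finite étale covers of projective varieties over an algebraically closed field. -/

namespace Pool.Agent.Lib.MP_651af7_nt.Et

open MvPolynomial Bx

variable {L : Type} [Field L] {ν κ : Type} [Fintype ν] [Fintype κ]

/-- The map `f` from the variety of `I'` onto the variety of `I` is, near each point, given by
forms whose differential at that point is a bijection of the tangent spaces. -/
structure Etale (I' : Ideal (MvPolynomial ν L)) (I : Ideal (MvPolynomial κ L))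
    (f : (ν → L) → κ → L) : Prop where
  map : ∀ y ≠ 0, (∀ P ∈ I', eval y P = 0) → f y ≠ 0 ∧ ∀ P ∈ I, eval (f y) P = 0
  onto : ∀ x ≠ 0, (∀ P ∈ I, eval x P = 0) →
    ∃ y ≠ 0, (∀ P ∈ I', eval y P = 0) ∧ ∃ c : L, x = c • f y
  loc : ∀ y₀ ≠ 0, (∀ P ∈ I', eval y₀ P = 0) → ∃ (d : ℕ) (π : κ → MvPolynomial ν L),
    (∀ i, (π i).IsHomogeneous d) ∧ (∃ i, eval y₀ (π i) ≠ 0) ∧
    (∀ y ≠ 0, (∀ P ∈ I', eval y P = 0) → ∃ c : L, ∀ i, eval y (π i) = c * f y i) ∧
    Set.BijOn (fun (v : ν → L) i => ∑ a, eval y₀ (pderiv a (π i)) * v a) (tsp I' y₀) (tsp I (f y₀))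

end Pool.Agent.Lib.MP_651af7_nt.Et
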