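import Pool.Agent.Lib.MP_651af7_nt.Et.Base
import Pool.Agent.Lib.MP_651af7_nt.Et.Cov
import Pool.Agent.Lib.MP_651af7_nt.Ds.Tan

/-! Descent of an étale cover to a finite extension. -/

namespace Pool.Agent.Lib.MP_651af7_nt.Et

open MvPolynomial Bx Ds Av Module

set_option linter.unusedSectionVars false

variable {k K : Type} [Field k] [CharZero k] [Field K] [Algebra k K]
  [Algebra K (AlgebraicClosure k)] [IsScalarTower k K (AlgebraicClosure k)] {ν κ ι T : Type}
  [Fintype ν] [Fintype κ] [Fintype ι] {I' : Ideal (MvPolynomial ν (AlgebraicClosure k))}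
  {I : Ideal (MvPolynomial κ k)} {f : (ν → AlgebraicClosure k) → κ → AlgebraicClosure k} {d g : ℕ}

theorem var_dn (h : Var I')
    (hm : (dn K I').map (MvPolynomial.map (algebraMap K (AlgebraicClosure k))) = I') :
    Var (dn K I') := by
  refine ⟨dn_hom h.hom, ?_⟩
  obtain ⟨e⟩ := tan3_equiv (k := k) (K := K)
  have hp := h.isPrime
  rw [← hm] at hp
  have h2 := Ideal.map_isPrime_of_equiv (MvPolynomial.mapEquiv ν e.toRingEquiv)
    (I := (dn K I').map (MvPolynomial.map (algebraMap K (AlgebraicClosure k))))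
  have h3 : ((MvPolynomial.mapEquiv ν e.toRingEquiv :
      MvPolynomial ν (AlgebraicClosure k) →+* MvPolynomial ν (AlgebraicClosure K))).comp
      (MvPolynomial.map (algebraMap K (AlgebraicClosure k))) =
      MvPolynomial.map (algebraMap K (AlgebraicClosure K)) :=
    MvPolynomial.ringHom_ext (fun c => by simp) fun a => by simp
  rw [← h3, ← Ideal.map_map]
  exact h2

theorem smooth_dn (h : ∀ y : ν → AlgebraicClosure k, y ≠ 0 → (∀ P ∈ I', aeval y P = 0) →
      finrank (AlgebraicClosure k) (tsp I' y) = g + 1)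
    (hm : (dn K I').map (MvPolynomial.map (algebraMap K (AlgebraicClosure k))) = I') :
    Smooth (dn K I') g := by
  intro x hx0 hx
  obtain ⟨e⟩ := tan3_equiv (k := k) (K := K)
  let _ : Algebra (AlgebraicClosure k) (AlgebraicClosure K) := (e : _ →+* _).toAlgebra
  have : IsScalarTower K (AlgebraicClosure k) (AlgebraicClosure K) :=
    IsScalarTower.of_algebraMap_eq fun c => (e.commutes c).symm
  have hxe : x = fun a => algebraMap (AlgebraicClosure k) (AlgebraicClosure K) (e.symm (x a)) :=
    funext fun a => (e.apply_symm_apply (x a)).symm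
  have hy : ∀ P ∈ dn K I', aeval (fun a => e.symm (x a)) P = 0 := fun P hP => by
    have := comp_aeval_apply x (e.symm : AlgebraicClosure K →ₐ[K] AlgebraicClosure k) P
    rw [hx P hP, map_zero] at this
    exact this.symm
  rw [hxe, finrank_tsp (K := AlgebraicClosure k), ← tsp_map (K := AlgebraicClosure k) hy, hm]
  exact h _ (fun h0 => hx0 (funext fun a => by simpa using congrFun h0 a))
    (hm ▸ (zero_map (K := AlgebraicClosure k)).2 hy)

include k in
theorem ext_field (F : Type) [Field F] [Algebra K F] : ∃ (E : Type) (_ : Field E) (_ : Algebra K E)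
    (_ : Algebra (AlgebraicClosure k) E) (_ : IsScalarTower K (AlgebraicClosure k) E),
    Nonempty (F →ₐ[K] E) := by
  have := tan3_closure (k := k) (K := K)
  let e : AlgebraicClosure k →ₐ[K] AlgebraicClosure F := IsAlgClosed.lift
  let _ : Algebra (AlgebraicClosure k) (AlgebraicClosure F) := (e : _ →+* _).toAlgebra
  exact ⟨AlgebraicClosure F, _, _, _, IsScalarTower.of_algebraMap_eq fun c => (e.commutes c).symm,
    ⟨IsScalarTower.toAlgHom K F _⟩⟩

theorem cov_dn (h : Etale I' (I.map (MvPolynomial.map (algebraMap k (AlgebraicClosure k)))) f)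
    (hI' : Var I') (hI : Var I) (h0 : ∃ b, X b ∉ I')
    (hm : (dn K I').map (MvPolynomial.map (algebraMap K (AlgebraicClosure k))) = I')
    {π : T → κ → MvPolynomial ν K} (h1 : ∀ t, Chart I' f (d + 1)
      fun i => MvPolynomial.map (algebraMap K (AlgebraicClosure k)) (π t i))
    (h2 : ∀ y ≠ 0, (∀ P ∈ I', eval y P = 0) →
      ∃ t l, eval y (MvPolynomial.map (algebraMap K (AlgebraicClosure k)) (π t l)) ≠ 0) :
    Cov (dn K I') (up K I) d π := by
  refine ⟨fun t i => wh_of_map ((h1 t).hom i), fun t P hP => ?_, ?_, fun F _ _ y y0 hy => ?_,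
    fun F _ _ y u t l hy hl hu hr a b => ?_⟩
  · have h3 := h.map_mem hI' h0 (Ds.hom_map hI.hom) (h1 t) _ hP
    rwa [mem_dn, aeval_eq_bind₁, map_bind₁]
  · by_contra! hc
    obtain ⟨b, hb⟩ := h0
    exact hb (mem_of_zero hI' ⟨b, hb⟩ fun y y0 hy =>
      let ⟨t, l, e⟩ := h2 y y0 hy
      (e (hy _ (hc t l))).elim)
  · obtain ⟨E, _, _, _, _, ⟨j⟩⟩ := ext_field (k := k) (K := K) F
    by_contra! hc
    refine y0 (funext fun b => (map_eq_zero j).1 ?_)
    have h3 : X b ∈ RingHom.ker (aeval (R := AlgebraicClosure k) fun a => j (y a)) := by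
      refine mem_of_zero' (RingHom.ker_isPrime _) fun z hz => by_contra fun e => ?_
      obtain ⟨t, l, h4⟩ := h2 z (fun e' => e (by rw [e', eval_X, Pi.zero_apply])) fun P hP => hz P
        ((zero_map (K := AlgebraicClosure k)).2
          (fun Q hQ => by rw [← comp_aeval_apply, hy Q hQ, map_zero]) P (hm.symm ▸ hP))
      exact h4 (hz _ (by
        rw [RingHom.mem_ker, aeval_map_algebraMap, ← comp_aeval_apply, hc, map_zero]))
    rwa [RingHom.mem_ker, aeval_X] at h3
  · obtain ⟨E, _, _, _, _, ⟨j⟩⟩ := ext_field (k := k) (K := K) F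
    have h3 : ∀ P ∈ dn K I', aeval (fun a => j (y a)) P = 0 := fun Q hQ => by
      rw [← comp_aeval_apply, hy Q hQ, map_zero]
    have h4 := h.inj hI' h0 (h1 t) (y := fun a => j (y a)) (u := fun a => j (u a))
      (hm ▸ (zero_map (K := AlgebraicClosure k)).2 h3) (l := l)
      (by rwa [aeval_map_algebraMap, ← comp_aeval_apply, map_ne_zero])
      (by rw [← hm, tsp_map h3]; exact (tsp_alg j).2 hu) (fun i i' => by
        simp only [aeval_map_algebraMap, dP_map_algebraMap, ← comp_aeval_apply, ← map_dP,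
          ← map_mul, hr i i']) a b
    exact j.injective (by rwa [← map_mul, ← map_mul] at h4)

theorem exists_model {A : Type} [AddCommGroup A] {J : Ideal (MvPolynomial ι (AlgebraicClosure k))}
    {co : A → ι → AlgebraicClosure k} {Φ : ι → ι → MvPolynomial (ι ⊕ ι) K} (h : Pts J co)
    (hΦ : Sq co fun a b => MvPolynomial.map (algebraMap K (AlgebraicClosure k)) (Φ a b))
    (hm : (dn K J).map (MvPolynomial.map (algebraMap K (AlgebraicClosure k))) = J) :
    ∃ B : AV K ι, B.I = dn K J := by
  have := tan3_closure (k := k) (K := K)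
  have : CharZero K := charZero_of_injective_algebraMap (algebraMap k K).injective
  have ev : ∀ {σ : Type} (v : σ → AlgebraicClosure k) (P : MvPolynomial σ K),
      aeval v P = eval v (MvPolynomial.map (algebraMap K _) P) := fun v P => by
    rw [eval_map, aeval_def]
  obtain ⟨B, hB, -⟩ := Av.exists_av (AlgebraicClosure k) (dn K J) (dn_hom h.hom)
    (hm.symm ▸ h.prime) A co h.ne (fun x P hP => (ev _ P).trans (h.zero x _ hP))
    (fun v hv hz => h.bij v hv (hm ▸ (zero_map (K := AlgebraicClosure k)).2 hz))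
    Φ (fun a b => wh_of_map (hΦ.1 a b)) fun x y => by
      obtain ⟨c, hc, e⟩ := hΦ.2 x y
      exact ⟨c, hc, fun a b => by rw [ev, e]⟩
  exact ⟨B, hB⟩

end Pool.Agent.Lib.MP_651af7_nt.Et
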