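import Pool.Agent.Lib.MP_651af7_nt.Et.Cov
import Pool.Agent.Lib.MP_651af7_nt.Ds.Tan
import Pool.Agent.Lib.MP_651af7_nt.Bx.Main

/-! Vojta's inequality along the composite of a birational map and an unramified map. -/

namespace Pool.Agent.Lib.MP_651af7_nt.Et

open MvPolynomial Bx Av Module Height NumberField

set_option linter.unusedSectionVars false

theorem indep_of_inj {k F ι κ : Type} [Field k] [Field F] [Algebra k F] [Fintype ι] [Fintype κ]
    {J : Ideal (MvPolynomial ι k)} {Ψ : κ → MvPolynomial ι k} {z : ι → F}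
    (h1 : (fun j => aeval z (Ψ j)) ≠ 0) (hi : ∀ v ∈ tsp J z, ∀ t : F,
      (∀ j, dP z v (Ψ j) = t * aeval z (Ψ j)) → ∃ c : F, v = c • z) {r : ℕ}
    {w : Fin r → ι → F} (hw : ∀ l, w l ∈ tsp J z)
    (hl : LinearIndependent F (Fin.cons z w : Fin (r + 1) → ι → F)) :
    LinearIndependent F (Fin.cons (fun j => aeval z (Ψ j)) fun l j => dP z (w l) (Ψ j) :
      Fin (r + 1) → κ → F) := by
  rw [Fintype.linearIndependent_iff] at hl ⊢
  intro g hg
  rw [Fin.sum_univ_succ] at hg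
  simp only [Fin.cons_zero, Fin.cons_succ] at hg
  have hs : ∀ (P : MvPolynomial ι k) (s : Finset (Fin r)),
      dP z (∑ l ∈ s, g l.succ • w l) P = ∑ l ∈ s, g l.succ * dP z (w l) P := fun P s => by
    classical
    induction s using Finset.induction_on with
    | empty => simp only [Finset.sum_empty, dP_zero]
    | insert a s ha ih => rw [Finset.sum_insert ha, Finset.sum_insert ha, dP_lin, ih]
  obtain ⟨c, hc⟩ := hi _
    (Submodule.sum_mem _ fun l (_ : l ∈ Finset.univ) => Submodule.smul_mem _ (g l.succ) (hw l))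
    (-g 0) fun j => by
      have := congrFun hg j
      simp only [Pi.add_apply, Pi.smul_apply, Finset.sum_apply, smul_eq_mul, Pi.zero_apply] at this
      rw [hs]
      linear_combination this
  have h2 : ∀ l : Fin r, g l.succ = 0 := fun l => hl (Fin.cons (-c) fun l => g l.succ) (by
    rw [Fin.sum_univ_succ]
    simp only [Fin.cons_zero, Fin.cons_succ]
    rw [hc, neg_smul, neg_add_cancel]) l.succ
  simp only [h2, zero_smul, Finset.sum_const_zero, add_zero] at hg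
  exact Fin.cases ((smul_eq_zero.1 hg).resolve_right h1) h2

variable {k : Type} [Field k] [NumberField k] {ν κ ι T : Type} [Fintype ν] [Fintype κ]
  [Fintype ι] {I₁ : Ideal (MvPolynomial ν k)} {I : Ideal (MvPolynomial κ k)}
  {J : Ideal (MvPolynomial ι k)} {π : T → κ → MvPolynomial ν k} {d g : ℕ}
  {φ : ι → MvPolynomial ν k} {ψ : ν → MvPolynomial ι k} {ε : ℝ}

theorem geo (hπ : Cov I₁ I d π) (hI : ∀ P ∈ I, ∀ d, homogeneousComponent d P ∈ I)
    (h1 : Inv I₁ J φ ψ) (h2 : Inv J I₁ ψ φ) {x : κ → k} {y : ν → k} (y0 : y ≠ 0)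
    (yz : ∀ P ∈ I₁, aeval y P = 0) (xz : ∀ P ∈ I, aeval x P = 0) {t : T} {s : k}
    (hs : ∀ a, aeval y (π t a) = s * x a) {l : κ} (hl : aeval y (π t l) ≠ 0) {i : ν}
    (hi : aeval y (aeval φ (ψ i)) ≠ 0) {z : ι → k} (hz : z = fun j => aeval y (φ j)) (z0 : z ≠ 0)
    {j : ι} (hj : aeval z (aeval ψ (φ j)) ≠ 0) :
    (∃ c : k, c ≠ 0 ∧ ∀ a, aeval z (aeval ψ (π t a)) = c * x a) ∧ ∀ v ∈ tsp J z,
      (fun a => dP z v (aeval ψ (π t a))) ∈ tsp I x ∧ ∀ τ : k,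
      (∀ a, dP z v (aeval ψ (π t a)) = τ * aeval z (aeval ψ (π t a))) → ∃ c : k, v = c • z := by
  have s0 : s ≠ 0 := fun e => hl (by rw [hs, e, zero_mul])
  obtain ⟨b, hb⟩ := Function.ne_iff.1 y0
  obtain ⟨c, hc, e2⟩ := h1.pt y0 yz hi
  have zz := h1.zero yz
  rw [← hz] at e2 zz
  have e3 : ∀ a, aeval z (aeval ψ (π t a)) = c ^ (d + 1) * s * x a := fun a => by
    rw [bir1_aeval, funext e2, aeval_mul_of_hom (hπ.hom t a), hs, mul_assoc]
  have c0 : c ^ (d + 1) * s ≠ 0 := mul_ne_zero (pow_ne_zero _ hc) s0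
  refine ⟨⟨_, c0, e3⟩, fun v hv => ⟨?_, fun τ hτ => ?_⟩⟩
  · rw [← tsp_smul hI xz c0, ← funext e3]
    refine mem_tsp.2 fun P hP => ?_
    rw [← dP_comp, ← bir1_aeval]
    exact mem_tsp.1 hv _ (h2.map _ (hπ.map t P hP))
  · have b0 : aeval z (ψ b) ≠ 0 := (e2 b).trans_ne (mul_ne_zero hc hb)
    refine h2.inj h1 z0 zz hj hv (t := dP z v (ψ b) / aeval z (ψ b)) fun a => ?_
    rw [div_mul_eq_mul_div, eq_div_iff b0]
    refine (hπ.inj k _ _ t l (h2.zero zz) ?_ (h2.tan hv) (fun i j => ?_) a b).symm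
    · rw [funext e2, aeval_mul_of_hom (hπ.hom t l)]
      exact mul_ne_zero (pow_ne_zero _ hc) hl
    · rw [← dP_comp, ← dP_comp, ← bir1_aeval, ← bir1_aeval, hτ, hτ, mul_right_comm]

theorem core (A : AV k ι) (hI₁ : Var I₁) (hs₁ : Smooth I₁ g) (hb : Birat I₁ A.I) (hI : Var I)
    (hs : Smooth I g) (hπ : Cov I₁ I d π) (hε : 0 < ε) :
    ∃ (H : MvPolynomial ν k) (t : ℕ), H.IsHomogeneous t ∧ H ∉ I₁ ∧
      ∀ (m e : ℕ) (D : Fin m → MvPolynomial κ k) (S : Finset (FinitePlace k)),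
      (∀ j, (D j).IsHomogeneous e) → ∃ C : ℝ, ∀ (y : ν → k) (x : κ → k) (s : T → k), y ≠ 0 →
        (∀ P ∈ I₁, eval y P = 0) → eval y H ≠ 0 → x ≠ 0 → (∀ P ∈ I, eval x P = 0) →
        (∀ t i, eval y (π t i) = s t * x i) → (fun j => eval x (D j)) ≠ 0 →
        ∀ β : Fin (g + 1) → κ → k, LinearIndependent k β → (∀ l, β l ∈ tsp I x) →
        (∑ w : InfinitePlace k, w.mult * lam w.1 D e x + ∑ w ∈ S, lam w.1 D e x) + hK x β ≤
          ε * logHeight y + C := by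
  obtain ⟨φ, ψ, h, h'⟩ := hb
  obtain ⟨r, σ, hσ⟩ := exists_lieBasis A
  obtain ⟨a, ha⟩ := h.hom
  obtain ⟨b, hb⟩ := h'.hom
  obtain ⟨i, hi⟩ := h.ne
  obtain ⟨j, hj⟩ := h'.ne
  obtain ⟨t₀, l, hl⟩ := hπ.ex
  have hε' : 0 < ε / (2 * (a + 1)) := by positivity
  have hΨ := fun i => (hπ.hom t₀ i).aeval ψ hb
  obtain ⟨Θ, t, C₁, h1, h2, h3⟩ := canon hσ hΨ ⟨l, h.pull hI₁.isPrime (hπ.hom t₀ l) hl⟩ hε'
  have h4 := h1.mul ((ha j).aeval ψ hb)
  obtain ⟨C₂, h5⟩ := logHeight_eval_le' ha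
  refine ⟨π t₀ l * (aeval φ (Θ * aeval ψ (φ j)) * aeval φ (ψ i)), _, (hπ.hom t₀ l).mul
    ((h4.aeval φ ha).mul ((hb i).aeval φ ha)), fun e => (hI₁.isPrime.mem_or_mem e).elim hl fun e =>
      (hI₁.isPrime.mem_or_mem e).elim (h'.pull A.tr_prime h4 fun e' =>
      (A.tr_prime.mem_or_mem e').elim h2 hj) hi, fun m e D S hD => ?_⟩
  obtain ⟨C₃, h6⟩ := lam_sum A hΨ hD S hε'
  refine ⟨C₃ + C₁ + 2 * (ε / (2 * (a + 1))) * C₂, fun y x s y0 yz yH x0 xz hx xD β β1 β2 => ?_⟩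
  rw [← aeval_eq_eval, map_mul, map_mul, trans_aev, map_mul, mul_ne_zero_iff, mul_ne_zero_iff,
    mul_ne_zero_iff] at yH
  have xz' : ∀ P ∈ I, aeval x P = 0 := xz
  have yz' : ∀ P ∈ I₁, aeval y P = 0 := yz
  obtain rfl := dim_eq hσ hI₁ hs₁ h h' y0 yz' yH.2.2 yH.2.1.2
  have z0 := (h.rank hI₁.hom A.hom h' y0 yz' yH.2.2 yH.2.1.2).1
  have zz := h.zero yz'
  obtain ⟨⟨c, hc, e1⟩, e0⟩ := geo hπ hI.hom h h' y0 yz' xz' (hx t₀) yH.1 yH.2.2 rfl z0 yH.2.1.2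
  have e : (fun a => aeval (fun j => aeval y (φ j)) (aeval ψ (π t₀ a))) = c • x := funext e1
  have e' := e.trans_ne (smul_ne_zero hc x0)
  obtain ⟨w, w1, w2, w3⟩ := h3 _ z0 zz yH.2.1.1 e'
  have w4 : ∀ l, w l ∈ tsp A.I fun j => aeval y (φ j) := fun l => by
    rw [tsp_eq]
    exact w1 l
  have h7 : LinearIndependent k (fr (fun a => aeval ψ (π t₀ a)) _ w) :=
    indep_of_inj e' (fun v hv => (e0 v hv).2) w4 w2
  have h8 : finrank k (tsp I x) = g + 1 := by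
    rw [← Ds.finrank_tsp (F := AlgebraicClosure k)]
    exact hs _ (fun e => x0 (funext fun a => (map_eq_zero _).1 (congrFun e a))) (Ds.tan3_zero xz)
  obtain ⟨c', hc', h9⟩ := minors_prop h8 h7 β1 (Fin.cases (e.symm ▸ Submodule.smul_mem _ c
    (tsp_self hI.hom xz') : (fun a => aeval _ (aeval ψ (π t₀ a))) ∈ _) fun l => (e0 _ (w4 l)).1) β2
  have e4 := w3 (minors_ne_zero h7)
  rw [hK, e, logHeight_smul_eq_logHeight _ hc, ← logHeight_smul_eq_logHeight _ hc', ← h9] at e4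
  have e5 := h6 _ x c z0 zz x0 hc e1 xD
  have e6 : logHeight (fun j => aeval y (φ j)) ≤ C₂ + a * logHeight y := h5 y
  have e7 := mul_le_mul_of_nonneg_left e6 hε'.le
  have e8 : 2 * (ε / (2 * (a + 1)) * (a * logHeight y)) ≤ ε * logHeight y := by
    rw [← mul_assoc, ← mul_assoc]
    refine mul_le_mul_of_nonneg_right ?_ (logHeight_nonneg y)
    rw [mul_div_assoc', div_mul_eq_mul_div, div_le_iff₀ (by positivity)]
    nlinarith
  rw [hK]
  linarith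

end Pool.Agent.Lib.MP_651af7_nt.Et
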