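import Mathlib

/-! The height of a root of a polynomial. -/

namespace Pool.Agent.Lib.MP_651af7_nt.Et

open MvPolynomial Height

variable {K : Type} [Field K] [NumberField K]

/-- The pair `a n * t ^ n, a n` is a linear image of the vector of the `a i * t ^ i` (`i < n`) and
`a n`. -/
theorem ht_root (n : ℕ) : ∃ C : ℝ, ∀ (a : Fin (n + 1) → K) (t : K), a (Fin.last n) ≠ 0 →
    ∑ i, a i * t ^ (i : ℕ) = 0 → logHeight₁ t ≤ logHeight a + C := by
  rcases n with _ | n
  · exact ⟨0, fun a t h0 h => (h0 (by simpa using h)).elim⟩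
  obtain ⟨C₁, h1⟩ := logHeight_eval_le' (K := K) (N := 1)
    (p := ![-∑ j : Fin (n + 1), X j.castSucc, X (Fin.last (n + 1))]) (Fin.forall_fin_two.2
      ⟨(IsHomogeneous.sum _ _ _ fun j _ => isHomogeneous_X _ _).neg, isHomogeneous_X _ _⟩)
  obtain ⟨C₂, h2⟩ := logHeight_eval_le' (K := K) (N := n) (p := fun i : Fin (n + 2) =>
    X (0 : Fin 2) ^ (i % (n + 1) : ℕ) * X 1 ^ (n - i % (n + 1))) fun i => by
      have h := (isHomogeneous_X_pow (R := K) (0 : Fin 2) (i % (n + 1) : ℕ)).mul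
        (isHomogeneous_X_pow 1 (n - i % (n + 1)))
      rwa [Nat.add_sub_cancel' (Nat.lt_succ_iff.1 (Nat.mod_lt _ n.succ_pos))] at h
  refine ⟨C₁ + C₂, fun a t h0 h => ?_⟩
  have h3 := h2 ![t, 1]
  have h4 := h1 (a * fun i : Fin (n + 2) => t ^ (i % (n + 1) : ℕ))
  have h5 := logHeight_mul_le a fun i : Fin (n + 2) => t ^ (i % (n + 1) : ℕ)
  have h6 : (fun j => eval (a * fun i : Fin (n + 2) => t ^ (i % (n + 1) : ℕ))
      (![-∑ j : Fin (n + 1), X j.castSucc, X (Fin.last (n + 1))] j)) =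
      a (Fin.last (n + 1)) • ![t ^ (n + 1), 1] := by
    rw [Fin.sum_univ_castSucc] at h
    refine funext (Fin.forall_fin_two.2 ⟨?_, by simp⟩)
    simp only [Matrix.cons_val_zero, map_neg, map_sum, eval_X, Pi.mul_apply, Fin.val_castSucc,
      Nat.mod_eq_of_lt (Fin.is_lt _), Pi.smul_apply, smul_eq_mul]
    exact neg_eq_of_add_eq_zero_right h
  rw [h6, logHeight_smul_eq_logHeight _ h0, ← logHeight₁_eq_logHeight, logHeight₁_pow] at h4
  simp only [map_mul, map_pow, eval_X, Matrix.cons_val_zero, Matrix.cons_val_one, one_pow, mul_one,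
    ← logHeight₁_eq_logHeight] at h3
  push_cast at h4
  linarith

theorem ht_sum {ν : Type} [Fintype ν] (y : ν → K) : logHeight y ≤ ∑ a, logHeight₁ (y a) := by
  classical
  have h := logHeight_comp_le (fun a a' : ν => if a' = a then (0 : Fin 2) else 1)
    fun I : ν → Fin 2 => ∏ a, ![y a, 1] (I a)
  rw [logHeight_fun_prod_eq (x := fun a => ![y a, 1]) fun a =>
    Function.ne_iff.2 ⟨1, one_ne_zero⟩] at h
  simp only [logHeight₁_eq_logHeight]
  refine le_of_eq_of_le (congrArg _ (funext fun a => ?_)) h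
  simp [apply_ite]

/-- The height of a point whose coordinates satisfy equations with coefficients forms in `x`. -/
theorem ht_lift {ν κ : Type} [Fintype ν] [Fintype κ] {n e : ν → ℕ}
    {c : ∀ a, Fin (n a + 1) → MvPolynomial κ K} (hc : ∀ a i, (c a i).IsHomogeneous (e a)) :
    ∃ C : ℝ, ∀ (x : κ → K) (y : ν → K), (∀ a, eval x (c a (Fin.last _)) ≠ 0) →
      (∀ a, ∑ i, eval x (c a i) * y a ^ (i : ℕ) = 0) →
      logHeight y ≤ (∑ a, e a : ℕ) * logHeight x + C := by
  choose C₁ h1 using fun a => ht_root (K := K) (n a)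
  choose C₂ h2 using fun a => logHeight_eval_le' (hc a)
  refine ⟨∑ a, (C₁ a + C₂ a), fun x y h3 h4 => (ht_sum y).trans ?_⟩
  rw [Nat.cast_sum, Finset.sum_mul, ← Finset.sum_add_distrib]
  refine Finset.sum_le_sum fun a _ => ?_
  have h5 := h1 a _ _ (h3 a) (h4 a)
  have h6 := h2 a x
  linarith

end Pool.Agent.Lib.MP_651af7_nt.Et
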