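import Pool.Agent.Lib.MP_651af7_nt.Et.Defs
import Pool.Agent.Lib.MP_651af7_nt.Ds.Tan

/-! Sanity checks: the identity is an étale cover, and `Y = (1)` is allowed. -/

namespace Pool.Agent.Lib.MP_651af7_nt.Et

open MvPolynomial Bx Height

theorem etale_id {L κ : Type} [Field L] [Fintype κ] (I : Ideal (MvPolynomial κ L)) :
    Etale I I id := by
  classical
  refine ⟨fun y h1 h2 => ⟨h1, h2⟩, fun x h1 h2 => ⟨x, h1, h2, 1, (one_smul _ _).symm⟩,
    fun y h1 _ => ⟨1, X, isHomogeneous_X L, ?_, fun z _ _ => ⟨1, by simp⟩, ?_⟩⟩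
  · simpa using Function.ne_iff.1 h1
  · have : (fun (v : κ → L) i => ∑ a, eval y (pderiv a (X i : MvPolynomial κ L)) * v a) = id := by
      funext v i
      simp [pderiv_X, Pi.single_apply, apply_ite]
    rw [this]
    exact Set.bijOn_id _

/-- The extension of a variety to the algebraic closure is a variety. -/
theorem var_bar {k κ : Type} [Field k] [Fintype κ] {I : Ideal (MvPolynomial κ k)} (h : Var I) :
    Var (I.map (MvPolynomial.map (algebraMap k (AlgebraicClosure k)))) := by
  refine ⟨Ds.hom_map h.hom, ?_⟩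
  have := h.prime
  exact Ideal.map_isPrime_of_equiv (MvPolynomial.mapEquiv κ (RingEquiv.ofBijective
    (algebraMap (AlgebraicClosure k) (AlgebraicClosure (AlgebraicClosure k)))
    IsAlgClosed.algebraMap_bijective_of_isIntegral))

/-- The family `Y = (1)` satisfies the hypothesis on the height of the ideal. -/
theorem one_height {k κ : Type} [Field k] (I : Ideal (MvPolynomial κ k)) :
    2 ≤ ((Ideal.span (Set.range fun _ : Fin 1 => (1 : MvPolynomial κ k))).map
      (Ideal.Quotient.mk I)).height := by
  rw [Set.range_const, Ideal.span_singleton_one, Ideal.map_top, Ideal.height_top]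
  exact le_top

/-- For `Y = (1)` and `d = 0` the term `d h(x) - h(Y(x))` vanishes. -/
theorem one_term {k κ : Type} [Field k] [NumberField k] [Fintype κ] (x : κ → k) :
    ((0 : ℕ) : ℝ) * logHeight x -
      logHeight (fun _ : Fin 1 => eval x (1 : MvPolynomial κ k)) = 0 := by
  rw [Nat.cast_zero, zero_mul, zero_sub, neg_eq_zero]
  simp only [map_one]
  exact logHeight_one

end Pool.Agent.Lib.MP_651af7_nt.Et
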