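import Pool.Agent.Lib.MP_651af7_nt.Et.Setup
import Pool.Agent.Lib.MP_651af7_nt.Et.Geo
import Pool.Agent.Lib.MP_651af7_nt.Ds.Ht

/-! Vojta's inequality on varieties with an étale cover birational to an abelian variety. -/

namespace Pool.Agent.Lib.MP_651af7_nt.Et

open MvPolynomial Bx Ds Av Module Height NumberField

variable {k : Type} [Field k] [NumberField k] {ν κ ι : Type} [Fintype ν] [Fintype κ] [Fintype ι]
  {I' : Ideal (MvPolynomial ν (AlgebraicClosure k))} {I : Ideal (MvPolynomial κ k)}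
  {f : (ν → AlgebraicClosure k) → κ → AlgebraicClosure k} {g : ℕ} {ε : ℝ}

theorem eps_le {ε h h' C : ℝ} (hε : 0 < ε) (a : ℕ) (h0 : 0 ≤ h) (h1 : h' ≤ a * h + C) :
    ε / (a + 1) * h' ≤ ε * h + ε / (a + 1) * C := by
  have h2 : (0 : ℝ) < a + 1 := by positivity
  have h3 := mul_le_mul_of_nonneg_left h1 (div_pos hε h2).le
  have h4 : ε / (a + 1) * (a * h) ≤ ε * h := by
    rw [← mul_assoc]
    refine mul_le_mul_of_nonneg_right ?_ h0
    rw [div_mul_eq_mul_div, div_le_iff₀ h2]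
    nlinarith
  linarith

theorem of_model (hI : Var I) (hs : Smooth I g) (hI' : Var I')
    (h : Etale I' (I.map (MvPolynomial.map (algebraMap k (AlgebraicClosure k)))) f)
    {J : Ideal (MvPolynomial ι (AlgebraicClosure k))} {A : Type} [AddCommGroup A]
    {co : A → ι → AlgebraicClosure k} (hJ : Pts J co) (hm : HasModel co) (hb : Birat I' J)
    (hε : 0 < ε) : ∃ (Θ : MvPolynomial κ k) (t : ℕ), Θ.IsHomogeneous t ∧ Θ ∉ I ∧
      ∀ (m e : ℕ) (D : Fin m → MvPolynomial κ k) (S : Finset (FinitePlace k)),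
      (∀ j, (D j).IsHomogeneous e) → ∃ C : ℝ, ∀ x : κ → k, x ≠ 0 → (∀ P ∈ I, eval x P = 0) →
        eval x Θ ≠ 0 → (fun j => eval x (D j)) ≠ 0 → finrank k (tsp I x) = g + 1 ∧
        ∀ β : Fin (g + 1) → κ → k, LinearIndependent k β → (∀ l, β l ∈ tsp I x) →
        (∑ w : InfinitePlace k, w.mult * lam w.1 D e x + ∑ w ∈ S, lam w.1 D e x) + hK x β ≤
          ε * logHeight x + C := by
  obtain ⟨K, _, m, B, I₁, T, _, d, π, a, C₀, h1, h2, h3, h4, h5⟩ := setup hI hs hI' h hJ hm hb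
  obtain ⟨H, t, t1, t2, t3⟩ := core B h1 h2 h3 (var_up hI) (smooth_up hs) h4
    (show 0 < ε / (a + 1) by positivity)
  obtain ⟨Θ, t', u1, u2, u3⟩ := h5 H t t1 t2
  refine ⟨Θ, t', u1, u2, fun m e D S hD => ?_⟩
  obtain ⟨S', hT⟩ := sum_fin (K := K) (ι := κ) (α := Fin m) S
  obtain ⟨C, hC⟩ := t3 m e (fun j => MvPolynomial.map (algebraMap k K) (D j)) S'
    fun j => (hD j).map _
  have hn : (0 : ℝ) < finrank k K := Nat.cast_pos.2 finrank_pos
  have hne : ∀ {F : Type} [Field F] [Algebra k F] {α : Type} {y : α → k}, y ≠ 0 →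
      (fun a => algebraMap k F (y a)) ≠ 0 := fun h h' =>
    h (funext fun a => (map_eq_zero _).1 (congrFun h' a))
  refine ⟨(ε / (a + 1) * C₀ + C) / finrank k K, fun x x0 xz xΘ xD => ⟨?_, fun β b1 b2 => ?_⟩⟩
  · rw [← finrank_tsp (F := AlgebraicClosure k)]
    exact hs _ (hne x0) (tan3_zero xz)
  obtain ⟨y, s, y0, yz, yH, ys, yh⟩ := u3 x x0 xz xΘ
  have e2 := hC y _ s y0 yz yH (hne x0) (zero_up xz) ys (by simpa only [ev_map] using hne xD)
    (fun l a => algebraMap k K (β l a)) (linearIndependent_algebraMap_comp_iff.2 b1)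
    fun l => tsp_up xz (b2 l)
  have e3 := eps_le hε a (logHeight_nonneg _) yh
  rw [sum_inf D e x0 xD, hT D e x x0 xD, hK_alg] at e2
  rw [MP_651af7_nt.Final.logHeight_algebraMap] at e3
  refine le_of_mul_le_mul_left ?_ hn
  rw [mul_add _ (ε * _), mul_div_cancel₀ _ hn.ne']
  linarith

end Pool.Agent.Lib.MP_651af7_nt.Et
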