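import Pool.Agent.Lib.MP_651af7_nt.Et.Main
import Pool.Agent.Lib.MP_651af7_nt.Et.CovY

/-! The height of a subscheme of codimension two. -/

namespace Pool.Agent.Lib.MP_651af7_nt.Et

open MvPolynomial Bx Ds Av Module Height NumberField

variable {k : Type} [Field k] [NumberField k] {ν κ ι α : Type} [Fintype ν] [Fintype κ] [Fintype ι]
  [Fintype α] {I' : Ideal (MvPolynomial ν (AlgebraicClosure k))} {I : Ideal (MvPolynomial κ k)}
  {f : (ν → AlgebraicClosure k) → κ → AlgebraicClosure k} {g e : ℕ} {ε : ℝ}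
  {Y : α → MvPolynomial κ k}

theorem part_model (hI : Var I) (hs : Smooth I g) (hI' : Var I')
    (h : Etale I' (I.map (MvPolynomial.map (algebraMap k (AlgebraicClosure k)))) f)
    {J : Ideal (MvPolynomial ι (AlgebraicClosure k))} {A : Type} [AddCommGroup A]
    {co : A → ι → AlgebraicClosure k} (hJ : Pts J co) (hm : HasModel co) (hb : Birat I' J)
    (hY : ∀ j, (Y j).IsHomogeneous e) (hc : Hy.Cod I Y g) (hε : 0 < ε) :
    ∃ (Θ : MvPolynomial κ k) (t : ℕ) (C : ℝ), Θ.IsHomogeneous t ∧ Θ ∉ I ∧ ∀ x : κ → k, x ≠ 0 →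
      (∀ P ∈ I, eval x P = 0) → eval x Θ ≠ 0 → (fun j => eval x (Y j)) ≠ 0 ∧
        e * logHeight x - logHeight (fun j => eval x (Y j)) ≤ ε * logHeight x + C := by
  obtain ⟨K, _, m, B, I₁, T, _, d, π, a, C₀, h1, h2, h3, h4, h5⟩ := setup hI hs hI' h hJ hm hb
  obtain ⟨H, t, C, t1, t2, t3⟩ := core_Y B h1 h2 h3 h4 (fun j => (hY j).map _) (cod_up hc)
    (show 0 < ε / (a + 1) by positivity)
  obtain ⟨Θ, t', u1, u2, u3⟩ := h5 H t t1 t2
  have hn : (0 : ℝ) < finrank k K := Nat.cast_pos.2 finrank_pos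
  refine ⟨Θ, t', (ε / (a + 1) * C₀ + C) / finrank k K, u1, u2, fun x x0 xz xΘ => ?_⟩
  obtain ⟨y, s, y0, yz, yH, ys, yh⟩ := u3 x x0 xz xΘ
  obtain ⟨e1, e2⟩ := t3 y _ s y0 yz yH
    (fun e => x0 (funext fun a => (map_eq_zero _).1 (congrFun e a))) ys
  have e3 := eps_le hε a (logHeight_nonneg _) yh
  simp only [ev_map, MP_651af7_nt.Final.logHeight_algebraMap] at e1 e2 e3
  refine ⟨fun e => e1 (funext fun j => by rw [congrFun e j, Pi.zero_apply, map_zero]; rfl),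
    le_of_mul_le_mul_left ?_ hn⟩
  rw [mul_add _ (ε * _), mul_div_cancel₀ _ hn.ne']
  linarith

end Pool.Agent.Lib.MP_651af7_nt.Et
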