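import Pool.Agent.Lib.MP_651af7_nt.Et.Alg
import Pool.Agent.Lib.MP_651af7_nt.Et.Ht
import Pool.Agent.Lib.MP_651af7_nt.Et.Chev
import Pool.Agent.Lib.MP_651af7_nt.Ds.Desc

/-! Rational points lift to the cover over one number field, with comparable height. -/

namespace Pool.Agent.Lib.MP_651af7_nt.Et

open MvPolynomial Bx Av Module Height

set_option linter.unusedSectionVars false

variable {k Ω : Type} [Field k] [NumberField k] [Field Ω] [Algebra k Ω] [IsAlgClosure k Ω]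
  {ν κ : Type} [Fintype ν] [Fintype κ] {I' : Ideal (MvPolynomial ν Ω)}
  {I : Ideal (MvPolynomial κ Ω)} {f : (ν → Ω) → κ → Ω}

theorem ex_field (L : IntermediateField k Ω) [FiniteDimensional k L] {σ T : Type} [Finite T]
    (s : T → MvPolynomial σ Ω) : ∃ K : IntermediateField k Ω, FiniteDimensional k K ∧ L ≤ K ∧
      ∀ K' : IntermediateField k Ω, K ≤ K' →
        ∀ t, ∃ P, MvPolynomial.map (algebraMap K' Ω) P = s t := by
  classical
  have : Finite (⋃ t, ((s t).coeffs : Set Ω) : Set Ω) :=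
    (Set.finite_iUnion fun t => (s t).coeffs.finite_toSet).to_subtype
  have := IntermediateField.finiteDimensional_adjoin (K := k) (S := ⋃ t, ((s t).coeffs : Set Ω))
    fun x _ => Algebra.IsIntegral.isIntegral x
  exact ⟨L ⊔ .adjoin k (⋃ t, ((s t).coeffs : Set Ω)), inferInstance, le_sup_left,
    fun K' hK t => mem_range_map_iff_coeffs_subset.2 fun c hc => ⟨⟨c, hK (le_sup_right
      (a := L) (IntermediateField.subset_adjoin k _ (Set.mem_iUnion.2 ⟨t, hc⟩)))⟩, rfl⟩⟩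

theorem ev_map {K σ : Type} [Field K] [Algebra K Ω] (v : σ → K) (P : MvPolynomial σ K) :
    eval (fun a => algebraMap K Ω (v a)) (MvPolynomial.map (algebraMap K Ω) P) =
      algebraMap K Ω (eval v P) := (map_eval _ v P).symm

theorem alg_ne [IsAlgClosed Ω] [CharZero Ω] (h : Etale I' I f) (hI' : Var I')
    (hI : ∀ P ∈ I, ∀ d, homogeneousComponent d P ∈ I) {b : ν} (hb : X b ∉ I')
    {H : MvPolynomial ν Ω} {d : ℕ} (hH : H.IsHomogeneous d) (h0 : H ∉ I') :
    ∃ (Θ : MvPolynomial κ Ω) (t : ℕ), Θ.IsHomogeneous t ∧ Θ ∉ I ∧ ∀ x y, x ≠ 0 → Ov I' f x y →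
      y b = 1 → eval x Θ ≠ 0 → eval y H ≠ 0 := by
  obtain ⟨n, e, c, h1, -, h2, h3⟩ := alg_eq h hI' hI hb hH
  refine ⟨c 0, e, h1 0, h2 h0, fun x y hx hy h4 h5 h6 => h5 ?_⟩
  have h7 := h3 x y hx hy
  rw [h6, h4, Fin.sum_univ_succ] at h7
  simpa using h7

theorem lift_pt (h : Etale I' I f) (hI' : Var I') (hp : I.IsPrime)
    (hI : ∀ P ∈ I, ∀ d, homogeneousComponent d P ∈ I) {b : ν} (hb : X b ∉ I') :
    ∃ (L : IntermediateField k Ω) (_ : FiniteDimensional k L) (Θ : MvPolynomial κ Ω) (t a : ℕ),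
      Θ.IsHomogeneous t ∧ Θ ∉ I ∧ ∀ (K : IntermediateField k Ω) [NumberField K], L ≤ K →
      ∃ C : ℝ, ∀ x : κ → k, x ≠ 0 → (∀ P ∈ I, eval (fun i => algebraMap k Ω (x i)) P = 0) →
        eval (fun i => algebraMap k Ω (x i)) Θ ≠ 0 → ∃ y : ν → K, y b = 1 ∧
        Ov I' f (fun i => algebraMap k Ω (x i)) (fun a => algebraMap K Ω (y a)) ∧
        logHeight y ≤ a * logHeight (fun i => algebraMap k K (x i)) + C := by
  have : IsAlgClosed Ω := IsAlgClosure.isAlgClosed k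
  have : CharZero Ω := charZero_of_injective_algebraMap (algebraMap k Ω).injective
  choose n e c h1 h2 _ h3 using fun a => alg_eq h hI' hI hb (isHomogeneous_X Ω a)
  obtain ⟨K₀, _, -, h4⟩ := ex_field (⊥ : IntermediateField k Ω)
    fun p : Σ a, Fin (n a + 1) => c p.1 p.2
  obtain ⟨L, _, h5⟩ := chevalley h hI' K₀ (∑ a, n a)
  have ev : ∀ (K : IntermediateField k Ω) (x : κ → k) (P : MvPolynomial κ K),
      eval (fun i => algebraMap k Ω (x i)) (MvPolynomial.map (algebraMap K Ω) P) =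
        algebraMap K Ω (eval (fun i => algebraMap k K (x i)) P) := fun K x P => by
    simp only [← ev_map, ← IsScalarTower.algebraMap_apply]
  refine ⟨L ⊔ K₀, inferInstance, ∏ a, c a (Fin.last _), _, ∑ a, e a,
    IsHomogeneous.prod _ _ _ fun a _ => h1 a _, fun e => ?_, fun K _ hK => ?_⟩
  · obtain ⟨a, -, ha⟩ := (Ideal.IsPrime.prod_mem_iff (hp := hp)).1 e
    exact h2 a ha
  choose c' hc' using fun a i => h4 K (le_sup_right.trans hK) ⟨a, i⟩
  obtain ⟨C, hC⟩ := ht_lift (c := c') (e := e) fun a i =>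
    Ds.wh_of_map (Ω := Ω) ((hc' a i).symm ▸ h1 a i)
  refine ⟨C, fun x x0 xz xΘ => ?_⟩
  have x0' : (fun i => algebraMap k Ω (x i)) ≠ 0 := fun e =>
    x0 (funext fun a => (map_eq_zero _).1 (congrFun e a))
  rw [map_prod, Finset.prod_ne_zero_iff] at xΘ
  obtain ⟨y₀, hy₀⟩ : ∃ y, Ov I' f (fun i => algebraMap k Ω (x i)) y := h.onto _ x0' xz
  have b0 : y₀ b ≠ 0 := fun e => hy₀.1 (funext fun a => by
    have h6 := h3 a _ _ x0' hy₀
    rw [Fin.sum_univ_castSucc, Finset.sum_eq_zero fun i _ => by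
      rw [e, one_mul, Fin.val_castSucc, zero_pow (Nat.sub_pos_of_lt i.2).ne', mul_zero, mul_zero],
      zero_add,
      Fin.val_last, Nat.sub_self, mul_zero, pow_zero, mul_one, eval_X] at h6
    exact (pow_eq_zero_iff'.1 ((mul_eq_zero.1 h6).resolve_left (xΘ a (Finset.mem_univ a)))).1)
  have hy := h.ov_smul hI' hy₀ (inv_ne_zero b0)
  obtain ⟨y, e1⟩ : ∃ y, y = (y₀ b)⁻¹ • y₀ := ⟨_, rfl⟩
  have y1 : y b = 1 := e1 ▸ inv_mul_cancel₀ b0
  rw [← e1] at hy
  have h6 : ∀ a, ∑ i, eval (fun i => algebraMap k Ω (x i)) (c a i) * y a ^ (i : ℕ) = 0 :=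
    fun a => by simpa only [y1, one_pow, mul_one, eval_X] using h3 a _ _ x0' hy
  have h7 := h5 x y x0 hy ⟨b, y1⟩ fun a => by
    choose c₀ hc₀ using fun i => h4 K₀ le_rfl ⟨a, i⟩
    refine ⟨∑ i : Fin (n a + 1), Polynomial.C (eval (fun i => algebraMap k K₀ (x i)) (c₀ i)) *
      Polynomial.X ^ (i : ℕ), fun e => xΘ a (Finset.mem_univ a) ?_, ?_, ?_⟩
    · have h8 := congrArg (Polynomial.coeff · (n a)) e
      simp only [Polynomial.finsetSum_coeff, Polynomial.coeff_C_mul_X_pow,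
        Polynomial.coeff_zero] at h8
      rw [Finset.sum_eq_single (Fin.last _) (fun i _ hi => if_neg fun e => hi (Fin.ext e.symm))
        (by simp), if_pos (Fin.val_last _).symm] at h8
      rw [← hc₀, ev, h8, map_zero]
    · exact Polynomial.natDegree_sum_le_of_forall_le _ _ fun i _ =>
        (Polynomial.natDegree_C_mul_X_pow_le _ _).trans ((Nat.lt_succ_iff.1 i.2).trans
          (Finset.single_le_sum (fun _ _ => Nat.zero_le _) (Finset.mem_univ a)))
    · simp only [map_sum, map_mul, map_pow, Polynomial.aeval_C, Polynomial.aeval_X, ← ev, hc₀]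
      exact h6 a
  refine ⟨fun a => ⟨y a, hK (le_sup_left (b := K₀) (h7 a))⟩, Subtype.ext y1, hy,
    hC _ _ (fun a e => xΘ a (Finset.mem_univ a) ?_) fun a => (map_eq_zero (algebraMap K Ω)).1 ?_⟩
  · rw [← hc', ev, e, map_zero]
  · simp only [map_sum, map_mul, map_pow, ← ev, hc']
    exact h6 a

end Pool.Agent.Lib.MP_651af7_nt.Et
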