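import Pool.Agent.Lib.MP_651af7_nt.Et.Base

/-! Certificates: two points of one fibre are not close, and the graph is closed. -/

namespace Pool.Agent.Lib.MP_651af7_nt.Et

open MvPolynomial Bx Av Module

set_option linter.unusedSectionVars false

variable {L : Type} [Field L] {ν κ : Type} [Fintype ν] [Fintype κ]
  {I' : Ideal (MvPolynomial ν L)} {I : Ideal (MvPolynomial κ L)} {f : (ν → L) → κ → L}

/-- A scalar, a point and a direction. -/
def pt (t : L) (y u : ν → L) : Option (ν ⊕ ν) → L := fun o => o.elim t (Sum.elim y u)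

theorem exists_lift (Q : MvPolynomial (ν ⊕ ν) L) : ∃ Q' : MvPolynomial (Option (ν ⊕ ν)) L,
    ∀ t y u, eval (pt t y u) Q' = eval (Sum.elim y u) Q :=
  ⟨rename some Q, fun _ _ _ => eval_rename _ _ _⟩

theorem exists_fst (P : MvPolynomial ν L) : ∃ Q : MvPolynomial (ν ⊕ ν) L,
    ∀ y u, eval (Sum.elim y u) Q = eval y P :=
  ⟨rename Sum.inl P, fun _ _ => eval_rename _ _ _⟩

theorem exists_dP (P : MvPolynomial ν L) : ∃ Q : MvPolynomial (ν ⊕ ν) L,
    ∀ y u, eval (Sum.elim y u) Q = dP y u P :=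
  ⟨dP (fun a => X (Sum.inl a)) (fun a => X (Sum.inr a)) P, fun y u => by
    simp only [← aeval_eq_eval, dP_eq_sum, map_sum, map_mul, comp_aeval_apply, aeval_X,
      Sum.elim_inl, Sum.elim_inr]⟩

theorem taylor (P : MvPolynomial ν L) : ∃ G : MvPolynomial (Option (ν ⊕ ν)) L, ∀ t y u,
    eval (y + t • u) P = eval y P + t * dP y u P + t ^ 2 * eval (pt t y u) G := by
  induction P using MvPolynomial.induction_on with
  | C c => exact ⟨0, fun t y u => by simp [dP_C]⟩
  | add P Q hP hQ =>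
    obtain ⟨G, hG⟩ := hP
    obtain ⟨G', hG'⟩ := hQ
    refine ⟨G + G', fun t y u => ?_⟩
    rw [map_add, map_add, map_add, dP_add_pol, hG, hG']
    ring
  | mul_X P a hP =>
    obtain ⟨G, hG⟩ := hP
    obtain ⟨Q, hQ⟩ := exists_dP P
    obtain ⟨Q', hQ'⟩ := exists_lift Q
    refine ⟨G * (X (some (Sum.inl a)) + X none * X (some (Sum.inr a))) +
      Q' * X (some (Sum.inr a)), fun t y u => ?_⟩
    simp only [map_add, map_mul, eval_X, dP_mul_pol, dP_X, hG, hQ, hQ', aeval_eq_eval, pt,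
      Option.elim, Sum.elim_inl, Sum.elim_inr, Pi.add_apply, Pi.smul_apply, smul_eq_mul]
    ring

/-- The polynomials in a point and a direction that are divisible by the distance along secants
in the fibres. -/
def secant (I' : Ideal (MvPolynomial ν L)) (f : (ν → L) → κ → L) :
    Ideal (MvPolynomial (ν ⊕ ν) L) where
  carrier := {Q | ∃ G, ∀ x t y u, x ≠ 0 → t ≠ 0 → Ov I' f x y → Ov I' f x (y + t • u) →
    eval (Sum.elim y u) Q = t * eval (pt t y u) G}
  zero_mem' := ⟨0, fun _ _ _ _ _ _ _ _ => by simp⟩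
  add_mem' := fun ⟨G, h⟩ ⟨G', h'⟩ => ⟨G + G', fun x t y u a b c d => by
    rw [map_add, map_add, h x t y u a b c d, h' x t y u a b c d, mul_add]⟩
  smul_mem' := fun R _ ⟨G, h⟩ =>
    let ⟨R', hR⟩ := exists_lift R
    ⟨R' * G, fun x t y u a b c d => by
      rw [smul_eq_mul, map_mul, map_mul, h x t y u a b c d, hR, mul_left_comm]⟩

variable [IsAlgClosed L] [CharZero L]

theorem Etale.sep (h : Etale I' I f) (hI' : Var I') (a b : ν) :
    ∃ (M : ℕ) (G : MvPolynomial (Option (ν ⊕ ν)) L), ∀ x t y u, x ≠ 0 → t ≠ 0 → Ov I' f x y →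
      Ov I' f x (y + t • u) → (u b * y a - u a * y b) ^ M = t * eval (pt t y u) G := by
  have h1 : X (Sum.inr b) * X (Sum.inl a) - X (Sum.inr a) * X (Sum.inl b) ∈
      (secant I' f).radical := by
    rw [← vanishingIdeal_zeroLocus_eq_radical (K := L), mem_vanishingIdeal_iff]
    intro z hz
    obtain ⟨y, u, rfl⟩ : ∃ y u, z = Sum.elim y u := ⟨_, _, (Sum.elim_comp_inl_inr z).symm⟩
    have hz' : ∀ Q ∈ secant I' f, eval (Sum.elim y u) Q = 0 := hz
    simp only [map_sub, map_mul, aeval_X, Sum.elim_inl, Sum.elim_inr, sub_eq_zero]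
    rcases eq_or_ne y 0 with rfl | y0
    · simp
    have h2 : ∀ P ∈ I', eval y P = 0 := fun P hP => by
      obtain ⟨Q, hQ⟩ := exists_fst P
      rw [← hQ y u]
      exact hz' Q ⟨0, fun x t y u _ _ e _ => by rw [hQ, e.2.1 P hP, map_zero, mul_zero]⟩
    obtain ⟨d, π, hπ, l, hl⟩ := h.chart y0 h2
    refine h.inj₀ hI' hπ h2 hl (mem_tsp.2 fun P hP => ?_) (fun i j => ?_) a b
    · obtain ⟨Q, hQ⟩ := exists_dP P
      obtain ⟨G, hG⟩ := taylor P
      rw [← hQ y u]
      refine hz' Q ⟨-G, fun x t y u _ t0 e e' => mul_left_cancel₀ t0 ?_⟩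
      have h3 := hG t y u
      rw [e.2.1 P hP, e'.2.1 P hP] at h3
      rw [hQ, map_neg]
      linear_combination -h3
    · choose Q hQ using fun i => exists_dP (π i)
      choose R hR using fun i => exists_fst (π i)
      choose R' hR' using fun i => exists_lift (R i)
      choose G hG using fun i => taylor (π i)
      have h3 := hz' (Q i * R j - Q j * R i) ⟨G j * R' i - G i * R' j,
        fun x t y u x0 t0 e e' => mul_left_cancel₀ t0 (by
          obtain ⟨c, h4⟩ := hπ.ov x0 e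
          obtain ⟨c', h5⟩ := hπ.ov x0 e'
          have h6 := hG i t y u
          have h7 := hG j t y u
          simp only [map_sub, map_mul, hQ, hR', hR, h4, h5] at h6 h7 ⊢
          linear_combination (c * x i) * h7 - (c * x j) * h6)⟩
      rwa [map_sub, map_mul, map_mul, hQ, hQ, hR, hR, sub_eq_zero] at h3
  obtain ⟨M, G, hG⟩ := h1
  refine ⟨M, G, fun x t y u h2 h3 h4 h5 => ?_⟩
  simpa using hG x t y u h2 h3 h4 h5

/-- The graph is given by finitely many equations. -/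
theorem Etale.graph (h : Etale I' I f) : ∃ s : Finset (MvPolynomial (κ ⊕ ν) L),
    ∀ x y, x ≠ 0 → y ≠ 0 → (Ov I' f x y ↔ ∀ R ∈ s, eval (Sum.elim x y) R = 0) := by
  obtain ⟨s, hs⟩ : (vanishingIdeal L {z : κ ⊕ ν → L | ∃ x y, x ≠ 0 ∧ Ov I' f x y ∧
      z = Sum.elim x y}).FG := IsNoetherian.noetherian _
  refine ⟨s, fun x y x0 y0 => ⟨fun e R hR => ?_, fun e => ?_⟩⟩
  · exact mem_vanishingIdeal_iff.1 (hs.le (Ideal.subset_span hR)) _ ⟨x, y, x0, e, rfl⟩
  have h1 : ∀ R : MvPolynomial (κ ⊕ ν) L,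
      (∀ x y, x ≠ 0 → Ov I' f x y → eval (Sum.elim x y) R = 0) → eval (Sum.elim x y) R = 0 :=
    fun R hR => (Ideal.span_le.2 e : _ ≤ RingHom.ker (eval (Sum.elim x y)))
      (hs ▸ mem_vanishingIdeal_iff.2 fun _ ⟨x, y, a, b, c⟩ => c ▸ hR x y a b)
  have h2 : ∀ (P : MvPolynomial ν L) (x : κ → L) y,
      eval (Sum.elim x y) (rename Sum.inr P) = eval y P := fun _ _ _ => eval_rename _ _ _
  have h3 : ∀ P ∈ I', eval y P = 0 := fun P hP =>
    (h2 P x y).symm.trans (h1 _ fun x y _ e => (h2 P x y).trans (e.2.1 P hP))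
  obtain ⟨d, π, hπ, l, hl⟩ := h.chart y0 h3
  obtain ⟨c, hc⟩ := hπ.val y y0 h3
  refine ⟨y0, h3, x l / f y l, funext fun i => ?_⟩
  have h4 := h1 (X (Sum.inl i) * rename Sum.inr (π l) - X (Sum.inl l) * rename Sum.inr (π i))
    fun x y x0 e => by
      obtain ⟨c, hc⟩ := hπ.ov x0 e
      simp only [map_sub, map_mul, eval_X, h2, hc, Sum.elim_inl]
      ring
  simp only [map_sub, map_mul, eval_X, h2, hc, Sum.elim_inl] at h4
  rw [hc, mul_ne_zero_iff] at hl
  rw [Pi.smul_apply, smul_eq_mul, div_mul_eq_mul_div, eq_div_iff hl.2]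
  refine mul_left_cancel₀ hl.1 ?_
  linear_combination h4

end Pool.Agent.Lib.MP_651af7_nt.Et
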