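import Pool.Agent.Lib.MP_651af7_nt.Et.Pt
import Pool.Agent.Lib.MP_651af7_nt.Et.Dn
import Pool.Agent.Lib.MP_651af7_nt.Ds.Mor
import Pool.Agent.Lib.MP_651af7_nt.Bx.Trans

/-! The cover, its charts and the abelian variety over one number field. -/

namespace Pool.Agent.Lib.MP_651af7_nt.Et

open MvPolynomial Bx Ds Av Module Height

set_option linter.unusedSectionVars false

theorem Etale.family {L ν κ : Type} [Field L] [Fintype ν] [Fintype κ]
    {I' : Ideal (MvPolynomial ν L)} {I : Ideal (MvPolynomial κ L)} {f : (ν → L) → κ → L}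
    (h : Etale I' I f) : ∃ (T : Type) (_ : Fintype T) (d : ℕ) (π : T → κ → MvPolynomial ν L),
      (∀ t, Chart I' f (d + 1) (π t)) ∧
      ∀ y ≠ 0, (∀ P ∈ I', eval y P = 0) → ∃ t l, eval y (π t l) ≠ 0 := by
  obtain ⟨s, h1, h2⟩ := (Submodule.fg_span_iff_fg_span_finset_subset (R := MvPolynomial ν L)
    {P | ∃ d π l, Chart I' f d π ∧ π l = P}).1 (IsNoetherian.noetherian _)
  choose d π l h3 h4 using fun P : s => h1 P.2
  refine ⟨s × ν, inferInstance, ∑ P, d P, fun t i => X t.2 ^ (∑ P, d P + 1 - d t.1) * π t.1 i,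
    fun t => ⟨fun i => ?_, fun y y0 hy => ?_⟩, fun y y0 hy => ?_⟩
  · have h5 := (isHomogeneous_X_pow (R := L) t.2 (∑ P, d P + 1 - d t.1)).mul ((h3 t.1).hom i)
    rwa [Nat.sub_add_cancel ((Finset.single_le_sum (fun _ _ => Nat.zero_le _)
      (Finset.mem_univ t.1)).trans (Nat.le_succ _))] at h5
  · obtain ⟨c, hc⟩ := (h3 t.1).val y y0 hy
    exact ⟨_, fun i => by rw [map_mul, hc, ← mul_assoc]⟩
  · obtain ⟨d', π', h5, l', h6⟩ := h.chart y0 hy
    obtain ⟨a, ha⟩ := Function.ne_iff.1 y0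
    by_contra! hc
    refine h6 ((h2.le.trans (Submodule.span_le.2 fun P hP => ?_) :
      _ ≤ RingHom.ker (eval y)) (Submodule.subset_span ⟨d', π', l', h5, rfl⟩))
    have h7 := hc (⟨P, hP⟩, a) (l ⟨P, hP⟩)
    rw [map_mul, map_pow, eval_X, h4] at h7
    exact (mul_eq_zero.1 h7).resolve_left (pow_ne_zero _ ha)

variable {k : Type} [Field k] [NumberField k] {ν κ ι : Type} [Fintype ν] [Fintype κ] [Fintype ι]
  {I' : Ideal (MvPolynomial ν (AlgebraicClosure k))} {I : Ideal (MvPolynomial κ k)}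
  {f : (ν → AlgebraicClosure k) → κ → AlgebraicClosure k} {g : ℕ}

theorem ex_theta {K : Type} [Field K] [Algebra k K] {Θ : MvPolynomial κ K} {t : ℕ}
    (h : Θ.IsHomogeneous t) (h' : Θ ∉ I.map (MvPolynomial.map (algebraMap k K))) :
    ∃ Θ₀ : MvPolynomial κ k, Θ₀.IsHomogeneous t ∧ Θ₀ ∉ I ∧
      ∀ x : κ → k, eval x Θ₀ ≠ 0 → eval (fun a => algebraMap k K (x a)) Θ ≠ 0 := by
  obtain ⟨l, hl⟩ : ∃ l : K →ₗ[k] k, Av.trCw l Θ ∉ I := by
    by_contra! hc
    exact h' (tan2_mem hc)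
  refine ⟨_, fun μ hμ => h fun h0 => hμ ?_, hl, fun x hx h0 => hx ?_⟩
  · rw [Av.coeff_trCw, h0, map_zero]
  · have e : eval x (Av.trCw l Θ) = l (eval (fun a => algebraMap k K (x a)) Θ) := by
      rw [Av.trCw, map_sum, eval_eq, map_sum]
      refine Finset.sum_congr rfl fun μ _ => ?_
      rw [eval_monomial, mul_comm, ← smul_eq_mul, ← map_smul, Algebra.smul_def, mul_comm]
      simp [Finsupp.prod]
    rw [e, h0, map_zero]

theorem setup (hI : Var I) (hs : Smooth I g) (hI' : Var I')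
    (h : Etale I' (I.map (MvPolynomial.map (algebraMap k (AlgebraicClosure k)))) f)
    {J : Ideal (MvPolynomial ι (AlgebraicClosure k))} {A : Type} [AddCommGroup A]
    {co : A → ι → AlgebraicClosure k} (hJ : Pts J co) (hm : HasModel co) (hb : Birat I' J) :
    ∃ (K : IntermediateField k (AlgebraicClosure k)) (_ : NumberField K) (m : ℕ)
      (B : AV K (Fin m)) (I₁ : Ideal (MvPolynomial ν K)) (T : Type) (_ : Fintype T) (d : ℕ)
      (π : T → κ → MvPolynomial ν K) (a : ℕ) (C : ℝ), Var I₁ ∧ Smooth I₁ g ∧ Birat I₁ B.I ∧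
      Cov I₁ (up K I) d π ∧ ∀ (H : MvPolynomial ν K) (t : ℕ), H.IsHomogeneous t → H ∉ I₁ →
      ∃ (Θ : MvPolynomial κ k) (t' : ℕ), Θ.IsHomogeneous t' ∧ Θ ∉ I ∧ ∀ x : κ → k, x ≠ 0 →
        (∀ P ∈ I, eval x P = 0) → eval x Θ ≠ 0 → ∃ (y : ν → K) (s : T → K), y ≠ 0 ∧
        (∀ P ∈ I₁, eval y P = 0) ∧ eval y H ≠ 0 ∧
        (∀ t i, eval y (π t i) = s t * algebraMap k K (x i)) ∧
        logHeight y ≤ a * logHeight (fun i => algebraMap k K (x i)) + C := by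
  obtain ⟨m, J', co', Φ, h1, h2, h3, h4⟩ := hm
  have : Nonempty A := ⟨0⟩
  obtain ⟨φ, ψ, i1, i2⟩ := hb.trans hI'.isPrime hJ.prime h1.prime hJ.exists_X (hJ.birat h1 h3 h4)
  obtain ⟨b, hb⟩ : ∃ b, X b ∉ I' := by
    by_contra! hc
    obtain ⟨i, hi⟩ := i1.ne
    exact hi (i1.map _ (by simpa only [aeval_X] using i2.map _ (hc i)))
  obtain ⟨T, hT, d, π, c1, c2⟩ := h.family
  obtain ⟨L, _, Θ₁, t₁, a, l1, l2, l3⟩ := lift_pt (k := k) h hI' hI.prime (Ds.hom_map hI.hom) hb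
  obtain ⟨s, hs'⟩ : I'.FG := IsNoetherian.noetherian I'
  obtain ⟨s', hs''⟩ : J'.FG := IsNoetherian.noetherian J'
  obtain ⟨K₁, _, k1, f1⟩ := ex_field L
    (Sum.elim (Sum.elim (Subtype.val : s → _) φ) fun p : T × κ => π p.1 p.2)
  obtain ⟨K₂, _, k2, f2⟩ := ex_field K₁ (Sum.elim (Subtype.val : s' → _) ψ)
  obtain ⟨K, _, k3, f3⟩ := ex_field K₂ fun p : Fin m × Fin m => Φ p.1 p.2
  have : NumberField K := NumberField.of_module_finite k K
  choose φ' hφ using fun j => f1 K (k2.trans k3) (.inl (.inr j))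
  choose π' hπ using fun t i => f1 K (k2.trans k3) (.inr (t, i))
  choose ψ' hψ using fun i => f2 K k3 (.inr i)
  choose Φ' hΦ using fun a b => f3 K le_rfl (a, b)
  obtain rfl : φ = fun j => MvPolynomial.map (algebraMap K _) (φ' j) := (funext hφ).symm
  obtain rfl : ψ = fun i => MvPolynomial.map (algebraMap K _) (ψ' i) := (funext hψ).symm
  obtain rfl : π = fun t i => MvPolynomial.map (algebraMap K _) (π' t i) :=
    (funext₂ hπ).symm
  obtain rfl : Φ = fun a b => MvPolynomial.map (algebraMap K _) (Φ' a b) := (funext₂ hΦ).symm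
  have m1 := dn_map (K := K) hs'.symm fun P hP => f1 K (k2.trans k3) (.inl (.inl ⟨P, hP⟩))
  have m2 := dn_map (K := K) hs''.symm fun P hP => f2 K k3 (.inl ⟨P, hP⟩)
  obtain ⟨B, hB⟩ := exists_model h1 h2 m2
  obtain ⟨C, hC⟩ := l3 K ((k1.trans k2).trans k3)
  refine ⟨K, this, m, B, dn K I', T, hT, d, π', a, C, var_dn hI' m1,
    smooth_dn (fun y y0 hy => ?_) m1, ⟨φ', ψ', hB ▸ inv_dn i1, hB ▸ inv_dn i2⟩,
    cov_dn h hI' hI ⟨b, hb⟩ m1 c1 c2, fun H t hH H0 => ?_⟩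
  · have h5 := (zero_map (K := AlgebraicClosure k)).1 (h.map y y0 hy).2
    rw [h.rank y0 hy, tsp_map h5]
    exact hs _ (h.map y y0 hy).1 h5
  obtain ⟨Θ₂, t₂, n1, n2, n3⟩ := alg_ne h hI' (Ds.hom_map hI.hom) hb (hH.map _) H0
  obtain ⟨Θ, u1, u2, u3⟩ := ex_theta (l1.mul n1) fun e => (hI.prime.mem_or_mem e).elim l2 n2
  refine ⟨Θ, _, u1, u2, fun x x0 xz xΘ => ?_⟩
  have h5 := u3 x xΘ
  rw [map_mul, mul_ne_zero_iff] at h5
  obtain ⟨y, y1, y2, y3⟩ := hC x x0 ((zero_map (K := AlgebraicClosure k)).2 (tan3_zero xz)) h5.1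
  have x0' : (fun i => algebraMap k (AlgebraicClosure k) (x i)) ≠ 0 := fun e =>
    x0 (funext fun a => (map_eq_zero _).1 (congrFun e a))
  obtain ⟨i₀, hi₀⟩ := Function.ne_iff.1 x0
  refine ⟨y, fun t => eval y (π' t i₀) / algebraMap k K (x i₀), Function.ne_iff.2
    ⟨b, y1.trans_ne one_ne_zero⟩, fun P hP => (map_eq_zero _).1 ((ev_map y P).symm.trans
      (y2.2.1 _ hP)), fun e => n3 _ _ x0' y2 (by rw [y1, map_one]) h5.2
        (by rw [ev_map, e, map_zero]), fun t i => ?_, y3⟩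
  obtain ⟨c, hc⟩ := (c1 t).ov x0' y2
  rw [div_mul_eq_mul_div, eq_div_iff ((map_ne_zero _).2 hi₀)]
  refine (algebraMap K (AlgebraicClosure k)).injective ?_
  rw [map_mul, map_mul, ← ev_map, ← ev_map, hc, hc, ← IsScalarTower.algebraMap_apply,
    ← IsScalarTower.algebraMap_apply, mul_right_comm]

end Pool.Agent.Lib.MP_651af7_nt.Et
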